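import Mathlib
import Pool.Agent.H985.Par.StmPar

/-!
# Parity in almost prime tuples over `F_q[X]`, `q` even (helper985): residue classes, partial sieves
-/

namespace Pool.Agent.H985.Par

open Polynomial
open scoped Classical
open Pool.Agent.H985.Chow (mob MD)
open Pool.Agent.H985.KP (mobg)
open Pool.Agent.H694.Typ (Mn mem_Mn card_Mn)

/-- The monic `f` of degree `n`, congruent to `r` modulo `Q`, such that the `f + α i`, `i ∈ A`, have
no irreducible factor of degree at most `m`, except for the divisors of `Q`. -/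
noncomputable def SfsG (K : Type) [Field K] [Fintype K] {k : ℕ} (α : Fin k → K[X])
    (A : Finset (Fin k)) (Q r : K[X]) (n m : ℕ) : Finset K[X] :=
  (Mn K n).filter (fun f => Q ∣ f - r ∧ ∀ i ∈ A, ∀ P : K[X], P.Monic → Irreducible P →
    ¬ P ∣ Q → P ∣ f + α i → m < P.natDegree)

/-- **Task PARG.**  The coordinates in `A` are sifted, the Möbius function is taken at the
coordinates in `S` (`A` and `S` are independent of each other). -/
def S_parG : Prop :=
  ∀ (K : Type) [Field K] [Fintype K] [CharP K 2] (k : ℕ) (Q : K[X]) (ε : ℝ), Q ≠ 0 → 0 < ε →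
    ∃ κ : ℝ, 0 < κ ∧ ∃ m₀ n₀ : ℕ, ∀ n : ℕ, n₀ ≤ n → ∀ m : ℕ, m₀ ≤ m → (m : ℝ) ≤ κ * n →
      ∀ (α g : Fin k → K[X]) (A S : Finset (Fin k)) (r : K[X]), Function.Injective α →
      (∀ i, (α i).natDegree < n) → (∀ i, (g i).Monic ∧ g i ∣ Q) → S.Nonempty →
      ∀ w : K[X] → ℝ, (∀ f, |w f| ≤ 1) →
        (∀ f, ∃ χ : AddChar K[X] ℝ, ∀ u, (2 * (Q * u).natDegree : ℝ) ≤ (1 - κ) * n →
          w (f + (Q * u) ^ 2) = w f * χ u) →
        |∑ f ∈ SfsG K α A Q r n m, w f * ∏ i ∈ S, (mobg (g i) (f + α i) : ℝ)| ≤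
          ε * (SfsG K α A Q r n m).card

/-- **Task LOWG.**  Lower bound for the number of sifted `f` in a residue class, and upper bound for
the number of those with a large square factor in some `f + α i`, `i ∈ A`. -/
def S_lowG : Prop :=
  ∀ (K : Type) [Field K] [Fintype K] (k : ℕ) (Q : K[X]), Q ≠ 0 → ∃ c : ℝ, 0 < c ∧ ∃ B : ℕ,
    ∀ n m : ℕ, 1 ≤ m → B * m ≤ n → B ≤ n →
      ∀ (α : Fin k → K[X]) (A : Finset (Fin k)) (r : K[X]), Function.Injective α →
      (∀ i, (α i).natDegree < n) →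
      (∀ P : K[X], P.Monic → Irreducible P → ¬ P ∣ Q → ∃ x : K[X], ∀ i ∈ A, ¬ P ∣ x + α i) →
        c * (Fintype.card K : ℝ) ^ n / (m : ℝ) ^ A.card ≤ (SfsG K α A Q r n m).card ∧
        (((SfsG K α A Q r n m).filter (fun f => ∃ i ∈ A, ∃ P : K[X], Irreducible P ∧ ¬ P ∣ Q ∧
          P ^ 2 ∣ f + α i)).card : ℝ) ≤
            2 * k * (Fintype.card K : ℝ) ^ n / (Fintype.card K : ℝ) ^ m

end Pool.Agent.H985.Par
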