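import Mathlib
import Pool.Agent.H985.FC.Full
import Pool.Agent.H183.Par.BRUN
import Pool.Agent.H675.Par.SW
import Pool.Agent.H627.Par.TypV
import Pool.Agent.H996.Par.Low
import Pool.Agent.H233.Par.Fib
import Pool.Agent.H225.Par.Par
import Pool.Agent.H154.Par.AsmU

/-!
# Parity in almost prime tuples over `F_q[X]`, `q` even: all parts together (helper985)
-/

namespace Pool.Agent.H985.Par

theorem s_sw : S_sw := Pool.Agent.H675.Par.sw Pool.Agent.H183.Par.brun

theorem s_low : S_low := Pool.Agent.H996.Par.low s_sw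

theorem s_fib : S_fib :=
  Pool.Agent.H233.Par.fib (Pool.Agent.H524.FC.win5c Pool.Agent.H985.FC.winFs
    Pool.Agent.H985.FC.win4s) (Pool.Agent.H627.Par.typV Pool.Agent.H985.KP.typ2)

theorem s_par : S_par := Pool.Agent.H225.Par.par s_fib s_sw s_low

theorem s_fullU : S_fullU := Pool.Agent.H154.Par.asmU s_fib

end Pool.Agent.H985.Par

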