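import Mathlib
import Pool.Agent.H985.Par.Final
import Pool.Agent.H985.Cor.Base

/-!
# Sign patterns of the Möbius function in sifted sets (helper985)
-/

set_option autoImplicit false

namespace Pool.Agent.H985.Par

open Polynomial Filter Topology
open scoped Classical
open Pool.Agent.H985.Chow (mob MD)
open Pool.Agent.H694.Typ (Mn mem_Mn card_Mn)

variable {K : Type} [Field K] [Fintype K]

theorem mob_cases (F : K[X]) : mob F = 0 ∨ mob F = 1 ∨ mob F = -1 := by
  rcases Pool.Agent.H985.Cor.tri_mob F with h | h | h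
  · left
    have h1 : (mob F : ℝ) = 0 := h
    exact_mod_cast h1
  · right; left
    have h1 : (mob F : ℝ) = 1 := h
    exact_mod_cast h1
  · right; right
    have h1 : (mob F : ℝ) = -1 := h
    exact_mod_cast h1

theorem mob_sqf {F : K[X]} (h : Squarefree F) : mob F = 1 ∨ mob F = -1 := by
  rcases mob_cases F with h0 | h0
  · exfalso
    have := Pool.Agent.H524.Ext.mob_mul_self h
    rw [h0] at this
    norm_num at this
  · exact h0

/-- an inadmissible tuple has an obstruction of small degree -/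
theorem obstruct {k : ℕ} (α : Fin k → K[X]) {P : K[X]} (hP : P.Monic)
    (h : ∀ r : K[X], ∃ i, P ∣ r + α i) : P.natDegree ≤ k := by
  by_contra hcon
  push Not at hcon
  -- the residues of degree `< natDegree P`
  have h1 : Fintype.card K ^ P.natDegree ≤ k := by
    choose i hi using h
    have hinj : Set.InjOn i (↑((Finset.univ : Finset (Fin P.natDegree → K)).image
        (Pool.Agent.H694.Typ.pol : (Fin P.natDegree → K) → K[X])) : Set K[X]) := by
      intro x hx y hy hxy
      simp only [Finset.coe_image, Finset.coe_univ, Set.image_univ, Set.mem_range] at hx hy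
      obtain ⟨cx, rfl⟩ := hx
      obtain ⟨cy, rfl⟩ := hy
      have e1 : P ∣ Pool.Agent.H694.Typ.pol cx - Pool.Agent.H694.Typ.pol cy := by
        have e2 := dvd_sub (hi (Pool.Agent.H694.Typ.pol cx)) (hi (Pool.Agent.H694.Typ.pol cy))
        rw [hxy] at e2
        have e3 : Pool.Agent.H694.Typ.pol cx + α (i (Pool.Agent.H694.Typ.pol cy)) -
          (Pool.Agent.H694.Typ.pol cy + α (i (Pool.Agent.H694.Typ.pol cy))) =
          Pool.Agent.H694.Typ.pol cx - Pool.Agent.H694.Typ.pol cy := by ring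
        rwa [e3] at e2
      have e4 : (Pool.Agent.H694.Typ.pol cx - Pool.Agent.H694.Typ.pol cy).degree < P.degree := by
        refine lt_of_le_of_lt (degree_sub_le _ _) ?_
        rw [degree_eq_natDegree hP.ne_zero]
        exact max_lt (Pool.Agent.H694.Typ.pol_degree cx) (Pool.Agent.H694.Typ.pol_degree cy)
      exact sub_eq_zero.1 (eq_zero_of_dvd_of_degree_lt e1 e4)
    have h2 := Finset.card_le_card_of_injOn i (fun x _ => Finset.mem_univ (i x)) hinj
    rw [Finset.card_image_of_injective _ Pool.Agent.H694.Typ.pol_inj, Finset.card_univ,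
      Fintype.card_fun, Fintype.card_fin, Finset.card_univ, Fintype.card_fin] at h2
    exact h2
  have h2 : P.natDegree < 2 ^ P.natDegree := Nat.lt_two_pow_self
  have h3 : 2 ^ P.natDegree ≤ Fintype.card K ^ P.natDegree :=
    Nat.pow_le_pow_left Fintype.one_lt_card _
  omega

theorem Sfs_empty {k : ℕ} (α : Fin k → K[X]) {P : K[X]} (hP : P.Monic) (hPi : Irreducible P)
    (h : ∀ r : K[X], ∃ i, P ∣ r + α i) {n m : ℕ} (hm : k ≤ m) : Sfs K α n m = ∅ := by
  rw [Finset.eq_empty_iff_forall_notMem]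
  intro f hf
  unfold Sfs at hf
  rw [Finset.mem_filter] at hf
  obtain ⟨i, hi⟩ := h f
  have h1 := hf.2 i P hP hPi hi
  have h2 := obstruct α hP h
  omega

/-- the proportion of a sign pattern, elementary part -/
theorem patt_aux {k : ℕ} (α : Fin k → K[X]) (n m : ℕ) (σ : Fin k → ℤ)
    (hσ : ∀ i, σ i = 1 ∨ σ i = -1) (ε : ℝ) (hε : 0 ≤ ε)
    (h : ∀ S : Finset (Fin k), S.Nonempty →
      |∑ f ∈ Sfs K α n m, ∏ i ∈ S, (mob (f + α i) : ℝ)| ≤ ε * (Sfs K α n m).card) :
    |(((Sfs K α n m).filter (fun f => ∀ i, mob (f + α i) = σ i)).card : ℝ) -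
      (Sfs K α n m).card / 2 ^ k| ≤ ε * (Sfs K α n m).card +
        ((Sfs K α n m).filter (fun f => ∃ i, ¬ Squarefree (f + α i))).card := by
  have hN : ∀ f : K[X], (∏ i, (1 + (σ i : ℝ) * (mob (f + α i) : ℝ))) / 2 ^ k =
      (∏ i, ((1 + (σ i : ℝ) * (mob (f + α i) : ℝ)) / 2)) := by
    intro f
    rw [Finset.prod_div_distrib, Finset.prod_const, Finset.card_univ, Fintype.card_fin]
  have h1 : ∑ f ∈ Sfs K α n m, (∏ i, (1 + (σ i : ℝ) * (mob (f + α i) : ℝ))) =
      (Sfs K α n m).card + ∑ S ∈ (Finset.univ : Finset (Fin k)).powerset.erase ∅,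
        (∏ i ∈ S, (σ i : ℝ)) * ∑ f ∈ Sfs K α n m, ∏ i ∈ S, (mob (f + α i) : ℝ) := by
    have e1 : ∀ f : K[X], (∏ i, (1 + (σ i : ℝ) * (mob (f + α i) : ℝ))) =
        ∑ S ∈ (Finset.univ : Finset (Fin k)).powerset, ∏ i ∈ S, ((σ i : ℝ) * (mob (f + α i) : ℝ)) :=
      fun f => Finset.prod_one_add _
    rw [Finset.sum_congr rfl fun f _ => e1 f, Finset.sum_comm,
      ← Finset.add_sum_erase _ _ (Finset.empty_mem_powerset _)]
    congr 1
    · simp
    · refine Finset.sum_congr rfl fun S _ => ?_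
      rw [Finset.mul_sum]
      refine Finset.sum_congr rfl fun f _ => ?_
      rw [Finset.prod_mul_distrib]
  have hσabs : ∀ S : Finset (Fin k), |∏ i ∈ S, (σ i : ℝ)| ≤ 1 := by
    intro S
    rw [Finset.abs_prod]
    refine Finset.prod_le_one (fun _ _ => abs_nonneg _) fun i _ => ?_
    rcases hσ i with h | h <;> rw [h] <;> simp
  have h2 : |(∑ f ∈ Sfs K α n m, (∏ i, (1 + (σ i : ℝ) * (mob (f + α i) : ℝ)))) / 2 ^ k -
      (Sfs K α n m).card / 2 ^ k| ≤ ε * (Sfs K α n m).card := by
    rw [h1, ← sub_div, add_sub_cancel_left, abs_div, abs_of_pos (show (0 : ℝ) < 2 ^ k by positivity),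
      div_le_iff₀ (by positivity)]
    refine (Finset.abs_sum_le_sum_abs _ _).trans ?_
    have e2 : ∀ S ∈ (Finset.univ : Finset (Fin k)).powerset.erase ∅,
        |(∏ i ∈ S, (σ i : ℝ)) * ∑ f ∈ Sfs K α n m, ∏ i ∈ S, (mob (f + α i) : ℝ)| ≤
          ε * (Sfs K α n m).card := by
      intro S hS
      rw [Finset.mem_erase] at hS
      rw [abs_mul]
      exact (mul_le_of_le_one_left (abs_nonneg _) (hσabs S)).trans
        (h S (Finset.nonempty_iff_ne_empty.2 hS.1))
    refine (Finset.sum_le_sum e2).trans ?_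
    rw [Finset.sum_const, nsmul_eq_mul, mul_comm]
    refine mul_le_mul_of_nonneg_left ?_ (by positivity)
    have e3 : ((Finset.univ : Finset (Fin k)).powerset.erase ∅).card ≤ 2 ^ k := by
      refine (Finset.card_erase_le).trans ?_
      rw [Finset.card_powerset, Finset.card_univ, Fintype.card_fin]
    exact_mod_cast e3
  have h3 : |(((Sfs K α n m).filter (fun f => ∀ i, mob (f + α i) = σ i)).card : ℝ) -
      (∑ f ∈ Sfs K α n m, (∏ i, (1 + (σ i : ℝ) * (mob (f + α i) : ℝ)))) / 2 ^ k| ≤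
      ((Sfs K α n m).filter (fun f => ∃ i, ¬ Squarefree (f + α i))).card := by
    rw [Finset.sum_div, Finset.card_filter, Finset.card_filter]
    push_cast
    rw [← Finset.sum_sub_distrib]
    refine (Finset.abs_sum_le_sum_abs _ _).trans (Finset.sum_le_sum fun f _ => ?_)
    rw [hN f]
    by_cases hsq : ∃ i, ¬ Squarefree (f + α i)
    · rw [if_pos hsq]
      have e4 : ∀ i, 0 ≤ (1 + (σ i : ℝ) * (mob (f + α i) : ℝ)) / 2 ∧
          (1 + (σ i : ℝ) * (mob (f + α i) : ℝ)) / 2 ≤ 1 := by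
        intro i
        rcases hσ i with h | h <;> rcases mob_cases (f + α i) with h' | h' | h' <;>
          rw [h, h'] <;> norm_num
      have e5 : 0 ≤ ∏ i, ((1 + (σ i : ℝ) * (mob (f + α i) : ℝ)) / 2) :=
        Finset.prod_nonneg fun i _ => (e4 i).1
      have e6 : ∏ i, ((1 + (σ i : ℝ) * (mob (f + α i) : ℝ)) / 2) ≤ 1 :=
        Finset.prod_le_one (fun i _ => (e4 i).1) fun i _ => (e4 i).2
      rw [abs_le]
      split_ifs <;> constructor <;> linarith
    · rw [if_neg hsq]
      push Not at hsq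
      have e7 : (if ∀ i, mob (f + α i) = σ i then (1 : ℝ) else 0) =
          ∏ i, ((1 + (σ i : ℝ) * (mob (f + α i) : ℝ)) / 2) := by
        have e8 : ∀ i, (1 + (σ i : ℝ) * (mob (f + α i) : ℝ)) / 2 =
            if mob (f + α i) = σ i then 1 else 0 := by
          intro i
          rcases hσ i with h | h <;> rcases mob_sqf (hsq i) with h' | h' <;>
            rw [h, h'] <;> norm_num
        rw [Finset.prod_congr rfl fun i _ => e8 i, Finset.prod_ite_zero]
        simp
      rw [e7, sub_self, abs_zero]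
  have h4 := abs_sub_le (((Sfs K α n m).filter (fun f => ∀ i, mob (f + α i) = σ i)).card : ℝ)
    ((∑ f ∈ Sfs K α n m, (∏ i, (1 + (σ i : ℝ) * (mob (f + α i) : ℝ)))) / 2 ^ k)
    ((Sfs K α n m).card / 2 ^ k : ℝ)
  linarith

/-- **Equidistribution of the sign patterns** in the sifted sets, uniformly in the shifts. -/
theorem patt (K : Type) [Field K] [Fintype K] [CharP K 2] (k : ℕ) (ε : ℝ) (hε : 0 < ε) :
    ∃ κ : ℝ, 0 < κ ∧ ∃ m₀ n₀ : ℕ, ∀ n : ℕ, n₀ ≤ n → ∀ m : ℕ, m₀ ≤ m → (m : ℝ) ≤ κ * n →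
      ∀ α : Fin k → K[X], Function.Injective α → (∀ i, (α i).natDegree < n) →
      ∀ σ : Fin k → ℤ, (∀ i, σ i = 1 ∨ σ i = -1) →
        |(((Sfs K α n m).filter (fun f => ∀ i, mob (f + α i) = σ i)).card : ℝ) -
          (Sfs K α n m).card / 2 ^ k| ≤ ε * (Sfs K α n m).card := by
  obtain ⟨κ, hκ, m₀, n₀, hpar⟩ := s_par K k (ε / 2) (by positivity)
  obtain ⟨c, hc, A, hlow⟩ := s_low K k
  have hq : (2 : ℝ) ≤ (Fintype.card K : ℝ) := by exact_mod_cast Fintype.one_lt_card
  -- `2 k m ^ k / q ^ m ≤ c ε / 2` for large `m`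
  have hlim : Tendsto (fun m : ℕ => 2 * k * ((m : ℝ) ^ k / (2 : ℝ) ^ m)) atTop (𝓝 0) := by
    have h1 := tendsto_pow_const_div_const_pow_of_one_lt k (show (1 : ℝ) < 2 by norm_num)
    simpa using h1.const_mul (2 * (k : ℝ))
  obtain ⟨m₁, hm₁⟩ := (Metric.tendsto_atTop.1 hlim (c * (ε / 2)) (by positivity))
  refine ⟨min κ (1 / (A + 1)), lt_min hκ (by positivity), max (max m₀ m₁) (k + 1), n₀,
    fun n hn m hm hmκ α hα hdeg σ hσ => ?_⟩
  have hm0 : m₀ ≤ m := le_trans (le_max_left _ _) (le_trans (le_max_left _ _) hm)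
  have hm1 : m₁ ≤ m := le_trans (le_max_right _ _) (le_trans (le_max_left _ _) hm)
  have hmk : k + 1 ≤ m := le_trans (le_max_right _ _) hm
  by_cases hadm : ∀ P : K[X], P.Monic → Irreducible P → ∃ r : K[X], ∀ i, ¬ P ∣ r + α i
  · have h1 := patt_aux α n m σ hσ (ε / 2) (by positivity)
      (hpar n hn m hm0 (hmκ.trans (mul_le_mul_of_nonneg_right (min_le_left _ _) (by positivity)))
        α hα hdeg)
    have hAm : A * m ≤ n := by
      have h2 : (m : ℝ) ≤ 1 / (A + 1) * n :=
        hmκ.trans (mul_le_mul_of_nonneg_right (min_le_right _ _) (by positivity))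
      have h3 : ((A : ℝ) + 1) * m ≤ n := by
        calc ((A : ℝ) + 1) * m ≤ (A + 1) * (1 / (A + 1) * n) :=
              mul_le_mul_of_nonneg_left h2 (by positivity)
          _ = n := by field_simp
      have h4 : (A + 1) * m ≤ n := by exact_mod_cast h3
      nlinarith
    obtain ⟨l1, l2⟩ := hlow n m (by omega) hAm α hα hdeg hadm
    have h5 : (((Sfs K α n m).filter (fun f => ∃ i, ¬ Squarefree (f + α i))).card : ℝ) ≤
        ε / 2 * (Sfs K α n m).card := by
      refine l2.trans ?_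
      have h6 := hm₁ m hm1
      rw [Real.dist_eq, sub_zero] at h6
      have h7 := (le_abs_self _).trans h6.le
      have hmpos : (0 : ℝ) < (m : ℝ) := by
        have : 0 < m := by omega
        exact_mod_cast this
      have h8 : (2 : ℝ) ^ m ≤ (Fintype.card K : ℝ) ^ m := pow_le_pow_left₀ (by norm_num) hq m
      have h9 : 2 * (k : ℝ) * (Fintype.card K : ℝ) ^ n / (Fintype.card K : ℝ) ^ m ≤
          ε / 2 * (c * (Fintype.card K : ℝ) ^ n / (m : ℝ) ^ k) := by
        have h10 : 2 * (k : ℝ) / (Fintype.card K : ℝ) ^ m ≤ c * (ε / 2) / (m : ℝ) ^ k := by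
          rw [div_le_div_iff₀ (by positivity) (by positivity)]
          have h11 : 2 * (k : ℝ) * (m : ℝ) ^ k ≤ c * (ε / 2) * 2 ^ m := by
            have h12 : 2 * (k : ℝ) * ((m : ℝ) ^ k / 2 ^ m) * 2 ^ m ≤ c * (ε / 2) * 2 ^ m :=
              mul_le_mul_of_nonneg_right h7 (by positivity)
            refine le_trans (le_of_eq ?_) h12
            field_simp
          exact h11.trans (mul_le_mul_of_nonneg_left h8 (by positivity))
        calc 2 * (k : ℝ) * (Fintype.card K : ℝ) ^ n / (Fintype.card K : ℝ) ^ m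
            = 2 * (k : ℝ) / (Fintype.card K : ℝ) ^ m * (Fintype.card K : ℝ) ^ n := by ring
          _ ≤ c * (ε / 2) / (m : ℝ) ^ k * (Fintype.card K : ℝ) ^ n :=
              mul_le_mul_of_nonneg_right h10 (by positivity)
          _ = _ := by ring
      exact h9.trans (mul_le_mul_of_nonneg_left l1 (by positivity))
    linarith
  · push Not at hadm
    obtain ⟨P, hP, hPi, hobs⟩ := hadm
    rw [Sfs_empty α hP hPi hobs (by omega)]
    simp

end Pool.Agent.H985.Par
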