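import Mathlib
import Pool.Agent.H985.Par.Patt

/-!
# Almost primes with prescribed parity (helper985)
-/

set_option autoImplicit false

namespace Pool.Agent.H985.Par

open Polynomial Filter Topology
open scoped Classical
open Pool.Agent.H985.Chow (mob MD)
open Pool.Agent.H694.Typ (Mn mem_Mn card_Mn)
open UniqueFactorizationMonoid (factors)

variable {K : Type} [Field K] [Fintype K]

theorem Sft_irr {m : ℕ} {F P : K[X]} (hs : Sft m F) (hP : Irreducible P) (hd : P ∣ F) :
    m < P.natDegree := by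
  have hP0 : P ≠ 0 := hP.ne_zero
  have hu : IsUnit (C (P.leadingCoeff)⁻¹ : K[X]) :=
    isUnit_C.2 (IsUnit.mk0 _ (inv_ne_zero (mt leadingCoeff_eq_zero.1 hP0)))
  have h1 : (P * C (P.leadingCoeff)⁻¹).Monic := monic_mul_leadingCoeff_inv hP0
  have h2 : Irreducible (P * C (P.leadingCoeff)⁻¹) := (irreducible_mul_isUnit hu).2 hP
  have h3 : P * C (P.leadingCoeff)⁻¹ ∣ F := (hu.mul_right_dvd).2 hd
  have h4 := hs _ h1 h2 h3
  have h5 : (P * C (P.leadingCoeff)⁻¹).natDegree = P.natDegree := by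
    apply natDegree_mul_leadingCoeff_self_inv
  omega

theorem factors_le {m n : ℕ} {F : K[X]} (hF : F ≠ 0) (hn : F.natDegree ≤ n) (hs : Sft m F) :
    Multiset.card (factors F) * (m + 1) ≤ n := by
  have h1 : Associated (factors F).prod F := UniqueFactorizationMonoid.factors_prod hF
  have h2 : (factors F).prod.natDegree = F.natDegree := by
    obtain ⟨u, hu⟩ := h1
    have h := congrArg natDegree hu
    rw [natDegree_mul (by
      intro h0
      rw [h0, zero_mul] at hu
      exact hF hu.symm) u.ne_zero, natDegree_coe_units, add_zero] at h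
    exact h
  have h3 : (factors F).prod.natDegree = ((factors F).map natDegree).sum :=
    natDegree_multiset_prod _ (fun h0 =>
      (UniqueFactorizationMonoid.irreducible_of_factor _ h0).ne_zero rfl)
  have h4 : Multiset.card ((factors F).map natDegree) • (m + 1) ≤
      ((factors F).map natDegree).sum := by
    apply Multiset.card_nsmul_le_sum
    intro x hx
    rw [Multiset.mem_map] at hx
    obtain ⟨P, hP, rfl⟩ := hx
    exact Sft_irr hs (UniqueFactorizationMonoid.irreducible_of_factor _ hP)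
      (UniqueFactorizationMonoid.dvd_of_mem_factors hP)
  rw [Multiset.card_map, smul_eq_mul] at h4
  omega

/-- **Almost prime tuples with prescribed parities**, uniformly in the shifts. -/
theorem few (K : Type) [Field K] [Fintype K] [CharP K 2] (k : ℕ) :
    ∃ (r : ℕ) (c : ℝ), 0 < c ∧ ∃ n₀ : ℕ, ∀ n : ℕ, n₀ ≤ n →
      ∀ α : Fin k → K[X], Function.Injective α → (∀ i, (α i).natDegree < n) →
      (∀ P : K[X], P.Monic → Irreducible P → ∃ x : K[X], ∀ i, ¬ P ∣ x + α i) →
      ∀ σ : Fin k → ℤ, (∀ i, σ i = 1 ∨ σ i = -1) →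
        c * (Fintype.card K : ℝ) ^ n / (n : ℝ) ^ k ≤
          (((Mn K n).filter (fun f => ∀ i, mob (f + α i) = σ i ∧
            Multiset.card (factors (f + α i)) ≤ r ∧
              ∀ P : K[X], Irreducible P → P ∣ f + α i → n ≤ (r + 1) * P.natDegree)).card : ℝ) := by
  obtain ⟨κ, hκ, m₀, n₀, hp⟩ := patt K k (1 / 2 / 2 ^ k) (by positivity)
  obtain ⟨c, hc, A, hlow⟩ := s_low K k
  obtain ⟨κ', hκ'⟩ : ∃ κ' : ℝ, κ' = min κ (1 / (A + 1)) := ⟨_, rfl⟩
  have hκ'0 : 0 < κ' := by rw [hκ']; exact lt_min hκ (by positivity)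
  obtain ⟨r, hr⟩ := exists_nat_ge (1 / κ')
  refine ⟨r, c / 2 / 2 ^ k, by positivity, max n₀ ⌈((m₀ : ℝ) + 2) / κ'⌉₊, ?_⟩
  intro n hn α hα hdeg hadm σ hσ
  have hn0 : n₀ ≤ n := le_trans (le_max_left _ _) hn
  have hn1 : ((m₀ : ℝ) + 2) / κ' ≤ n := by
    have h1 : ⌈((m₀ : ℝ) + 2) / κ'⌉₊ ≤ n := le_trans (le_max_right _ _) hn
    exact (Nat.le_ceil _).trans (by exact_mod_cast h1)
  have hn2 : (m₀ : ℝ) + 2 ≤ κ' * n := by
    rw [div_le_iff₀ hκ'0] at hn1
    linarith
  obtain ⟨m, hm⟩ : ∃ m : ℕ, m = ⌊κ' * n⌋₊ := ⟨_, rfl⟩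
  have hm1 : (m : ℝ) ≤ κ' * n := by
    rw [hm]
    exact Nat.floor_le (by positivity)
  have hm2 : κ' * n < (m : ℝ) + 1 := by
    rw [hm]
    exact Nat.lt_floor_add_one _
  have hm3 : m₀ + 1 ≤ m := by
    have : (m₀ : ℝ) + 1 < (m : ℝ) := by linarith
    have h : m₀ + 1 < m := by exact_mod_cast this
    omega
  have hmκ : (m : ℝ) ≤ κ * n := hm1.trans
    (mul_le_mul_of_nonneg_right (by rw [hκ']; exact min_le_left _ _) (by positivity))
  have hAm : A * m ≤ n := by
    have h2 : (m : ℝ) ≤ 1 / (A + 1) * n := hm1.trans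
      (mul_le_mul_of_nonneg_right (by rw [hκ']; exact min_le_right _ _) (by positivity))
    have h3 : ((A : ℝ) + 1) * m ≤ n := by
      calc ((A : ℝ) + 1) * m ≤ (A + 1) * (1 / (A + 1) * n) :=
            mul_le_mul_of_nonneg_left h2 (by positivity)
        _ = n := by field_simp
    have h4 : (A + 1) * m ≤ n := by exact_mod_cast h3
    nlinarith
  obtain ⟨l1, -⟩ := hlow n m (by omega) hAm α hα hdeg hadm
  have h5 := hp n hn0 m (by omega) hmκ α hα hdeg σ hσ
  rw [abs_le] at h5
  have hmn : (m : ℝ) ≤ n := by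
    have : A * m ≤ n := hAm
    have h3 : ((A : ℝ) + 1) * m ≤ n := by
      have h2 : (m : ℝ) ≤ 1 / (A + 1) * n := hm1.trans
        (mul_le_mul_of_nonneg_right (by rw [hκ']; exact min_le_right _ _) (by positivity))
      calc ((A : ℝ) + 1) * m ≤ (A + 1) * (1 / (A + 1) * n) :=
            mul_le_mul_of_nonneg_left h2 (by positivity)
        _ = n := by field_simp
    have h4 : (0 : ℝ) ≤ (A : ℝ) * m := by positivity
    linarith
  have hmpos : (0 : ℝ) < m := by
    have : 0 < m := by omega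
    exact_mod_cast this
  have h6 : c * (Fintype.card K : ℝ) ^ n / (n : ℝ) ^ k ≤ (Sfs K α n m).card := by
    refine le_trans ?_ l1
    exact div_le_div_of_nonneg_left (by positivity) (by positivity)
      (pow_le_pow_left₀ hmpos.le hmn k)
  have h7 : c / 2 / 2 ^ k * (Fintype.card K : ℝ) ^ n / (n : ℝ) ^ k ≤
      (((Sfs K α n m).filter (fun f => ∀ i, mob (f + α i) = σ i)).card : ℝ) := by
    have e1 : c / 2 / 2 ^ k * (Fintype.card K : ℝ) ^ n / (n : ℝ) ^ k =
        (1 / 2 / 2 ^ k) * (c * (Fintype.card K : ℝ) ^ n / (n : ℝ) ^ k) := by ring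
    have e2 : ((Sfs K α n m).card : ℝ) / 2 ^ k - 1 / 2 / 2 ^ k * (Sfs K α n m).card =
        1 / 2 / 2 ^ k * (Sfs K α n m).card := by ring
    rw [e1]
    have e3 := mul_le_mul_of_nonneg_left h6 (show (0 : ℝ) ≤ 1 / 2 / 2 ^ k by positivity)
    linarith [h5.1]
  refine h7.trans ?_
  norm_cast
  refine Finset.card_le_card fun f hf => ?_
  unfold Sfs at hf
  rw [Finset.mem_filter, Finset.mem_filter] at hf
  obtain ⟨⟨hf1, hf2⟩, hf3⟩ := hf
  rw [Finset.mem_filter]
  refine ⟨hf1, fun i => ⟨hf3 i, ?_, ?_⟩⟩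
  · have hfi : f + α i ∈ Mn K n := by
      rw [mem_Mn] at hf1 ⊢
      have hd : (α i).degree < f.degree := by
        refine lt_of_le_of_lt degree_le_natDegree ?_
        rw [degree_eq_natDegree hf1.1.ne_zero, hf1.2]
        exact_mod_cast hdeg i
      exact ⟨hf1.1.add_of_left hd, by rw [natDegree_add_eq_left_of_degree_lt hd, hf1.2]⟩
    rw [mem_Mn] at hfi
    have h8 := factors_le hfi.1.ne_zero hfi.2.le (hf2 i)
    -- card * (m + 1) ≤ n ≤ (m + 1) / κ'
    have h9 : (Multiset.card (factors (f + α i)) : ℝ) * (κ' * n) ≤ n := by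
      have h10 : ((Multiset.card (factors (f + α i)) : ℝ)) * ((m : ℝ) + 1) ≤ n := by
        exact_mod_cast h8
      refine le_trans ?_ h10
      exact mul_le_mul_of_nonneg_left hm2.le (by positivity)
    have hnpos : (0 : ℝ) < n := lt_of_lt_of_le hmpos hmn
    have h11 : (Multiset.card (factors (f + α i)) : ℝ) * κ' ≤ 1 := by
      have h12 : ((Multiset.card (factors (f + α i)) : ℝ) * κ') * n ≤ 1 * n := by linarith
      exact le_of_mul_le_mul_right h12 hnpos
    have h13 : (Multiset.card (factors (f + α i)) : ℝ) ≤ r := by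
      refine le_trans ?_ hr
      rw [le_div_iff₀ hκ'0]
      exact h11
    exact_mod_cast h13
  · intro P hP hPd
    have h8 := Sft_irr (hf2 i) hP hPd
    have h9 : (n : ℝ) ≤ ((r : ℝ) + 1) * P.natDegree := by
      have h10 : ((m : ℝ) + 1) ≤ P.natDegree := by exact_mod_cast h8
      have h11 : (n : ℝ) ≤ r * (κ' * n) := by
        have : 1 ≤ r * κ' := by
          rw [div_le_iff₀ hκ'0] at hr
          exact hr
        have hn' : (0 : ℝ) ≤ n := by positivity
        nlinarith
      have h12 : r * (κ' * n) ≤ (r : ℝ) * P.natDegree :=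
        mul_le_mul_of_nonneg_left (by linarith) (by positivity)
      have h13 : (0 : ℝ) ≤ P.natDegree := by positivity
      linarith
    exact_mod_cast h9

end Pool.Agent.H985.Par
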