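import Mathlib
import Pool.Agent.H985.Par.Few

/-!
# Asymptotic formula for almost prime tuples with prescribed parities (helper985)
-/

set_option autoImplicit false

namespace Pool.Agent.H985.Par

open Polynomial Filter Topology
open scoped Classical
open Pool.Agent.H985.Chow (mob MD)
open Pool.Agent.H694.Typ (Mn mem_Mn card_Mn PU mem_PU)
open Pool.Agent.H225.Par (vf lf Om ind Sd sw1 sum_Mn' card_Sfs Sft_iff vf_pos adm_big)

variable {K : Type} [Field K] [Fintype K]

/-- the number of sifted `f` -/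
theorem count (K : Type) [Field K] [Fintype K] [CharP K 2] (k : ℕ) (ε : ℝ) (hε : 0 < ε) :
    ∃ A : ℕ, ∀ n m : ℕ, 1 ≤ m → A * m ≤ n → ∀ α : Fin k → K[X],
      |((Sfs K α n m).card : ℝ) - vf (PU K m) (fun _ => α) * (Fintype.card K : ℝ) ^ n| ≤
        ε * (vf (PU K m) (fun _ => α) * (Fintype.card K : ℝ) ^ n) := by
  obtain ⟨A, hA⟩ := sw1 s_sw K k ε hε
  refine ⟨A, fun n m hm hAm α => ?_⟩
  by_cases hadm : ∀ P ∈ PU K m, ∃ r, ∀ i, ¬ P ∣ r - α i
  · obtain ⟨h1, h2, -⟩ := hA n m (PU K m) (fun _ => α) 1 (X ^ n) hm hAm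
      (fun P hP => ⟨(mem_PU.1 hP).1, (mem_PU.1 hP).2.1, (mem_PU.1 hP).2.2, isCoprime_one_left⟩) hadm
    rw [card_Sfs, sum_Mn']
    rw [abs_le]
    constructor <;> nlinarith
  · push Not at hadm
    obtain ⟨P, hP, hobs⟩ := hadm
    have h1 : Sfs K α n m = ∅ := by
      rw [Finset.eq_empty_iff_forall_notMem]
      intro f hf
      unfold Sfs at hf
      rw [Finset.mem_filter] at hf
      obtain ⟨i, hi⟩ := hobs f
      rw [CharTwo.sub_eq_add] at hi
      have h1 := hf.2 i P (mem_PU.1 hP).1 (mem_PU.1 hP).2.1 hi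
      have h2 := (mem_PU.1 hP).2.2
      omega
    have h2 : Om α P = (Finset.univ : Finset (degreeLT K P.natDegree)).image
        (fun u : degreeLT K P.natDegree => (u : K[X])) := by
      apply Finset.Subset.antisymm
      · intro y hy
        have h3 := Pool.Agent.H225.Par.Om_degree α (mem_PU.1 hP).1 y hy
        rw [Finset.mem_image]
        refine ⟨⟨y, ?_⟩, Finset.mem_univ _, rfl⟩
        rw [mem_degreeLT, ← degree_eq_natDegree (mem_PU.1 hP).1.ne_zero]
        exact h3
      · intro y hy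
        rw [Finset.mem_image] at hy
        obtain ⟨u, -, rfl⟩ := hy
        obtain ⟨i, hi⟩ := hobs u
        unfold Om
        rw [Finset.mem_image]
        refine ⟨i, Finset.mem_univ _, ?_⟩
        have h3 : (u : K[X]) %ₘ P = u := by
          rw [modByMonic_eq_self_iff (mem_PU.1 hP).1, degree_eq_natDegree (mem_PU.1 hP).1.ne_zero]
          exact mem_degreeLT.1 u.2
        rw [← h3]
        exact ((Pool.Agent.H225.Par.mod_eq_iff (mem_PU.1 hP).1 _ _).2 hi).symm
    have h3 : lf α P = 0 := by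
      have h4 : ((Om α P).card : ℝ) = (Fintype.card K : ℝ) ^ P.natDegree := by
        rw [h2, Finset.card_image_of_injective _ Subtype.val_injective, Finset.card_univ,
          Pool.Agent.H985.Chow.Asm.card_deg]
        push_cast
        rfl
      have h5 : (0 : ℝ) < (Fintype.card K : ℝ) ^ P.natDegree :=
        pow_pos (by exact_mod_cast Fintype.card_pos) _
      unfold lf
      rw [h4, div_self h5.ne', sub_self]
    have h4 : vf (PU K m) (fun _ => α) = 0 := Finset.prod_eq_zero hP h3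
    rw [h1, h4]
    simp

theorem vf_nonneg {k : ℕ} (m : ℕ) (α : Fin k → K[X]) : 0 ≤ vf (PU K m) (fun _ => α) := by
  refine Finset.prod_nonneg fun P hP => ?_
  have h5 : (0 : ℝ) < (Fintype.card K : ℝ) ^ P.natDegree :=
    pow_pos (by exact_mod_cast Fintype.card_pos) _
  have h6 : ((Om α P).card : ℝ) ≤ (Fintype.card K : ℝ) ^ P.natDegree := by
    have h2 : Om α P ⊆ (Finset.univ : Finset (degreeLT K P.natDegree)).image
        (fun u : degreeLT K P.natDegree => (u : K[X])) := by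
      intro y hy
      have h3 := Pool.Agent.H225.Par.Om_degree α (mem_PU.1 hP).1 y hy
      rw [Finset.mem_image]
      refine ⟨⟨y, ?_⟩, Finset.mem_univ _, rfl⟩
      rw [mem_degreeLT, ← degree_eq_natDegree (mem_PU.1 hP).1.ne_zero]
      exact h3
    have h7 := Finset.card_le_card h2
    rw [Finset.card_image_of_injective _ Subtype.val_injective, Finset.card_univ,
      Pool.Agent.H985.Chow.Asm.card_deg] at h7
    exact_mod_cast h7
  unfold lf
  rw [sub_nonneg, div_le_one h5]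
  exact h6

/-- **Asymptotic formula** for the number of almost prime tuples with prescribed parities. -/
theorem asy (K : Type) [Field K] [Fintype K] [CharP K 2] (k : ℕ) (ε : ℝ) (hε : 0 < ε) :
    ∃ κ : ℝ, 0 < κ ∧ ∃ m₀ n₀ : ℕ, ∀ n : ℕ, n₀ ≤ n → ∀ m : ℕ, m₀ ≤ m → (m : ℝ) ≤ κ * n →
      ∀ α : Fin k → K[X], Function.Injective α → (∀ i, (α i).natDegree < n) →
      ∀ σ : Fin k → ℤ, (∀ i, σ i = 1 ∨ σ i = -1) →
        |(((Sfs K α n m).filter (fun f => ∀ i, mob (f + α i) = σ i)).card : ℝ) -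
          vf (PU K m) (fun _ => α) * (Fintype.card K : ℝ) ^ n / 2 ^ k| ≤
            ε * (vf (PU K m) (fun _ => α) * (Fintype.card K : ℝ) ^ n) := by
  obtain ⟨ε', hε'0, hε'1, hε'2⟩ : ∃ ε' : ℝ, 0 < ε' ∧ ε' ≤ 1 ∧ 3 * ε' ≤ ε :=
    ⟨min 1 (ε / 3), lt_min one_pos (by positivity), min_le_left _ _, by
      have := min_le_right 1 (ε / 3)
      linarith⟩
  obtain ⟨κ, hκ, m₀, n₀, hp⟩ := patt K k ε' hε'0
  obtain ⟨A, hA⟩ := count K k ε' hε'0
  refine ⟨min κ (1 / (A + 1)), lt_min hκ (by positivity), m₀ + 1, n₀,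
    fun n hn m hm hmκ α hα hdeg σ hσ => ?_⟩
  have h1 := hp n hn m (by omega)
    (hmκ.trans (mul_le_mul_of_nonneg_right (min_le_left _ _) (by positivity))) α hα hdeg σ hσ
  have hAm : A * m ≤ n := by
    have h2 : (m : ℝ) ≤ 1 / (A + 1) * n :=
      hmκ.trans (mul_le_mul_of_nonneg_right (min_le_right _ _) (by positivity))
    have h3 : ((A : ℝ) + 1) * m ≤ n := by
      calc ((A : ℝ) + 1) * m ≤ (A + 1) * (1 / (A + 1) * n) :=
            mul_le_mul_of_nonneg_left h2 (by positivity)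
        _ = n := by field_simp
    have h4 : (A + 1) * m ≤ n := by exact_mod_cast h3
    nlinarith
  have h2 := hA n m (by omega) hAm α
  have hv : 0 ≤ vf (PU K m) (fun _ => α) * (Fintype.card K : ℝ) ^ n :=
    mul_nonneg (vf_nonneg m α) (by positivity)
  set W : ℝ := vf (PU K m) (fun _ => α) * (Fintype.card K : ℝ) ^ n with hW
  have h3 : ((Sfs K α n m).card : ℝ) ≤ 2 * W := by
    have := (abs_le.1 h2).2
    nlinarith
  have h4 : |((Sfs K α n m).card : ℝ) / 2 ^ k - W / 2 ^ k| ≤ ε' * W := by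
    rw [← sub_div, abs_div, abs_of_pos (show (0 : ℝ) < 2 ^ k by positivity),
      div_le_iff₀ (by positivity)]
    refine h2.trans ?_
    have : (1 : ℝ) ≤ 2 ^ k := one_le_pow₀ (by norm_num)
    have h5 : 0 ≤ ε' * W := by positivity
    nlinarith
  have h5 := abs_sub_le (((Sfs K α n m).filter (fun f => ∀ i, mob (f + α i) = σ i)).card : ℝ)
    ((Sfs K α n m).card / 2 ^ k : ℝ) (W / 2 ^ k)
  have h6 : ε' * ((Sfs K α n m).card : ℝ) ≤ ε' * (2 * W) := mul_le_mul_of_nonneg_left h3 hε'0.le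
  have h7 : 3 * ε' * W ≤ ε * W := mul_le_mul_of_nonneg_right hε'2 hv
  linarith

end Pool.Agent.H985.Par
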