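import Mathlib
import Pool.Agent.H985.Par.Few
import Pool.Agent.H721.Par.ParG
import Pool.Agent.H30.Par.LowG

/-!
# Sign patterns in sifted sets in residue classes (helper985)
-/

set_option autoImplicit false

namespace Pool.Agent.H985.Par

open Polynomial Filter Topology
open scoped Classical
open Pool.Agent.H985.Chow (mob MD)
open Pool.Agent.H985.KP (mobg)
open Pool.Agent.H694.Typ (Mn mem_Mn card_Mn)

variable {K : Type} [Field K] [Fintype K]

theorem s_lowG : S_lowG := Pool.Agent.H30.Par.lowG s_sw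

theorem s_parG : S_parG := Pool.Agent.H721.ParG.parG s_fib s_sw s_lowG

/-- the proportion of a sign pattern, abstract form -/
theorem patt_abs {ι : Type*} (S : Finset ι) {k : ℕ} (v : Fin k → ι → ℤ)
    (hv : ∀ i x, v i x = 0 ∨ v i x = 1 ∨ v i x = -1) (σ : Fin k → ℤ)
    (hσ : ∀ i, σ i = 1 ∨ σ i = -1) (ε : ℝ) (hε : 0 ≤ ε)
    (h : ∀ T : Finset (Fin k), T.Nonempty → |∑ x ∈ S, ∏ i ∈ T, (v i x : ℝ)| ≤ ε * S.card) :
    |((S.filter (fun x => ∀ i, v i x = σ i)).card : ℝ) - S.card / 2 ^ k| ≤ ε * S.card +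
      (S.filter (fun x => ∃ i, v i x = 0)).card := by
  have hN : ∀ x : ι, (∏ i, (1 + (σ i : ℝ) * (v i x : ℝ))) / 2 ^ k =
      (∏ i, ((1 + (σ i : ℝ) * (v i x : ℝ)) / 2)) := by
    intro x
    rw [Finset.prod_div_distrib, Finset.prod_const, Finset.card_univ, Fintype.card_fin]
  have h1 : ∑ x ∈ S, (∏ i, (1 + (σ i : ℝ) * (v i x : ℝ))) =
      S.card + ∑ T ∈ (Finset.univ : Finset (Fin k)).powerset.erase ∅,
        (∏ i ∈ T, (σ i : ℝ)) * ∑ x ∈ S, ∏ i ∈ T, (v i x : ℝ) := by
    have e1 : ∀ x : ι, (∏ i, (1 + (σ i : ℝ) * (v i x : ℝ))) =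
        ∑ T ∈ (Finset.univ : Finset (Fin k)).powerset, ∏ i ∈ T, ((σ i : ℝ) * (v i x : ℝ)) :=
      fun x => Finset.prod_one_add _
    rw [Finset.sum_congr rfl fun x _ => e1 x, Finset.sum_comm,
      ← Finset.add_sum_erase _ _ (Finset.empty_mem_powerset _)]
    congr 1
    · simp
    · refine Finset.sum_congr rfl fun T _ => ?_
      rw [Finset.mul_sum]
      refine Finset.sum_congr rfl fun x _ => ?_
      rw [Finset.prod_mul_distrib]
  have hσabs : ∀ T : Finset (Fin k), |∏ i ∈ T, (σ i : ℝ)| ≤ 1 := by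
    intro T
    rw [Finset.abs_prod]
    refine Finset.prod_le_one (fun _ _ => abs_nonneg _) fun i _ => ?_
    rcases hσ i with h | h <;> rw [h] <;> simp
  have h2 : |(∑ x ∈ S, (∏ i, (1 + (σ i : ℝ) * (v i x : ℝ)))) / 2 ^ k -
      S.card / 2 ^ k| ≤ ε * S.card := by
    rw [h1, ← sub_div, add_sub_cancel_left, abs_div, abs_of_pos (show (0 : ℝ) < 2 ^ k by positivity),
      div_le_iff₀ (by positivity)]
    refine (Finset.abs_sum_le_sum_abs _ _).trans ?_
    have e2 : ∀ T ∈ (Finset.univ : Finset (Fin k)).powerset.erase ∅,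
        |(∏ i ∈ T, (σ i : ℝ)) * ∑ x ∈ S, ∏ i ∈ T, (v i x : ℝ)| ≤ ε * S.card := by
      intro T hT
      rw [Finset.mem_erase] at hT
      rw [abs_mul]
      exact (mul_le_of_le_one_left (abs_nonneg _) (hσabs T)).trans
        (h T (Finset.nonempty_iff_ne_empty.2 hT.1))
    refine (Finset.sum_le_sum e2).trans ?_
    rw [Finset.sum_const, nsmul_eq_mul, mul_comm]
    refine mul_le_mul_of_nonneg_left ?_ (by positivity)
    have e3 : ((Finset.univ : Finset (Fin k)).powerset.erase ∅).card ≤ 2 ^ k := by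
      refine (Finset.card_erase_le).trans ?_
      rw [Finset.card_powerset, Finset.card_univ, Fintype.card_fin]
    exact_mod_cast e3
  have h3 : |((S.filter (fun x => ∀ i, v i x = σ i)).card : ℝ) -
      (∑ x ∈ S, (∏ i, (1 + (σ i : ℝ) * (v i x : ℝ)))) / 2 ^ k| ≤
      (S.filter (fun x => ∃ i, v i x = 0)).card := by
    rw [Finset.sum_div, Finset.card_filter, Finset.card_filter]
    push_cast
    rw [← Finset.sum_sub_distrib]
    refine (Finset.abs_sum_le_sum_abs _ _).trans (Finset.sum_le_sum fun x _ => ?_)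
    rw [hN x]
    by_cases hsq : ∃ i, v i x = 0
    · rw [if_pos hsq]
      have e4 : ∀ i, 0 ≤ (1 + (σ i : ℝ) * (v i x : ℝ)) / 2 ∧
          (1 + (σ i : ℝ) * (v i x : ℝ)) / 2 ≤ 1 := by
        intro i
        rcases hσ i with h | h <;> rcases hv i x with h' | h' | h' <;>
          rw [h, h'] <;> norm_num
      have e5 : 0 ≤ ∏ i, ((1 + (σ i : ℝ) * (v i x : ℝ)) / 2) :=
        Finset.prod_nonneg fun i _ => (e4 i).1
      have e6 : ∏ i, ((1 + (σ i : ℝ) * (v i x : ℝ)) / 2) ≤ 1 :=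
        Finset.prod_le_one (fun i _ => (e4 i).1) fun i _ => (e4 i).2
      rw [abs_le]
      split_ifs <;> constructor <;> linarith
    · rw [if_neg hsq]
      push Not at hsq
      have e7 : (if ∀ i, v i x = σ i then (1 : ℝ) else 0) =
          ∏ i, ((1 + (σ i : ℝ) * (v i x : ℝ)) / 2) := by
        have e8 : ∀ i, (1 + (σ i : ℝ) * (v i x : ℝ)) / 2 =
            if v i x = σ i then 1 else 0 := by
          intro i
          rcases hσ i with h | h <;> rcases (hv i x).resolve_left (hsq i) with h' | h' <;>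
            rw [h, h'] <;> norm_num
        rw [Finset.prod_congr rfl fun i _ => e8 i, Finset.prod_ite_zero]
        simp
      rw [e7, sub_self, abs_zero]
  have h4 := abs_sub_le ((S.filter (fun x => ∀ i, v i x = σ i)).card : ℝ)
    ((∑ x ∈ S, (∏ i, (1 + (σ i : ℝ) * (v i x : ℝ)))) / 2 ^ k)
    (S.card / 2 ^ k : ℝ)
  linarith

/-- the difference of degrees: an obstruction outside `Q` makes the sifted set empty -/
theorem SfsG_empty {k : ℕ} (α : Fin k → K[X]) (Q r : K[X]) {P : K[X]} (hP : P.Monic)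
    (hPi : Irreducible P) (hPQ : ¬ P ∣ Q) (h : ∀ x : K[X], ∃ i, P ∣ x + α i) {n m : ℕ}
    (hm : k ≤ m) : SfsG K α Finset.univ Q r n m = ∅ := by
  rw [Finset.eq_empty_iff_forall_notMem]
  intro f hf
  unfold SfsG at hf
  rw [Finset.mem_filter] at hf
  obtain ⟨i, hi⟩ := h f
  have h1 := hf.2.2 i (Finset.mem_univ i) P hP hPi hPQ hi
  have h2 := obstruct α hP h
  omega

/-- the values that matter: `mobg (g i) (f + α i)` vanishes only if a large square divides -/
def Sqc {K : Type} [Field K] [Fintype K] {k : ℕ} (α g : Fin k → K[X]) (Q r : K[X]) (n m : ℕ) :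
    Prop :=
  ∀ f ∈ SfsG K α Finset.univ Q r n m, ∀ i, mobg (g i) (f + α i) = 0 →
    ∃ P : K[X], Irreducible P ∧ ¬ P ∣ Q ∧ P ^ 2 ∣ f + α i

theorem mobg_cases (g F : K[X]) : mobg g F = 0 ∨ mobg g F = 1 ∨ mobg g F = -1 := by
  unfold mobg
  split_ifs
  · exact mob_cases _
  · left; rfl

/-- **Equidistribution of the sign patterns** in the sifted sets in a residue class. -/
theorem pattG (K : Type) [Field K] [Fintype K] [CharP K 2] (k : ℕ) (Q : K[X]) (hQ : Q ≠ 0)
    (ε : ℝ) (hε : 0 < ε) :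
    ∃ κ : ℝ, 0 < κ ∧ ∃ m₀ n₀ : ℕ, ∀ n : ℕ, n₀ ≤ n → ∀ m : ℕ, m₀ ≤ m → (m : ℝ) ≤ κ * n →
      ∀ (α g : Fin k → K[X]) (r : K[X]), Function.Injective α → (∀ i, (α i).natDegree < n) →
      (∀ i, (g i).Monic ∧ g i ∣ Q) → Sqc α g Q r n m →
      ∀ σ : Fin k → ℤ, (∀ i, σ i = 1 ∨ σ i = -1) →
        |(((SfsG K α Finset.univ Q r n m).filter (fun f => ∀ i, mobg (g i) (f + α i) = σ i)).card :
            ℝ) - (SfsG K α Finset.univ Q r n m).card / 2 ^ k| ≤
          ε * (SfsG K α Finset.univ Q r n m).card := by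
  obtain ⟨κ, hκ, m₀, n₀, hpar⟩ := s_parG K k Q (ε / 2) hQ (by positivity)
  obtain ⟨c, hc, B, hlow⟩ := s_lowG K k Q hQ
  have hq : (2 : ℝ) ≤ (Fintype.card K : ℝ) := by exact_mod_cast Fintype.one_lt_card
  have hlim : Tendsto (fun m : ℕ => 2 * k * ((m : ℝ) ^ k / (2 : ℝ) ^ m)) atTop (𝓝 0) := by
    have h1 := tendsto_pow_const_div_const_pow_of_one_lt k (show (1 : ℝ) < 2 by norm_num)
    simpa using h1.const_mul (2 * (k : ℝ))
  obtain ⟨m₁, hm₁⟩ := (Metric.tendsto_atTop.1 hlim (c * (ε / 2)) (by positivity))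
  refine ⟨min κ (1 / (B + 1)), lt_min hκ (by positivity), max (max m₀ m₁) (k + 1), max n₀ B,
    fun n hn m hm hmκ α g r hα hdeg hg hsqc σ hσ => ?_⟩
  have hn0 : n₀ ≤ n := le_trans (le_max_left _ _) hn
  have hnB : B ≤ n := le_trans (le_max_right _ _) hn
  have hm0 : m₀ ≤ m := le_trans (le_max_left _ _) (le_trans (le_max_left _ _) hm)
  have hm1 : m₁ ≤ m := le_trans (le_max_right _ _) (le_trans (le_max_left _ _) hm)
  have hmk : k + 1 ≤ m := le_trans (le_max_right _ _) hm
  by_cases hadm : ∀ P : K[X], P.Monic → Irreducible P → ¬ P ∣ Q → ∃ x : K[X],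
      ∀ i, ¬ P ∣ x + α i
  · have hchi : ∀ f : K[X], ∃ χ : AddChar K[X] ℝ, ∀ u,
        (2 * (Q * u).natDegree : ℝ) ≤ (1 - κ) * n →
        (1 : ℝ) = 1 * χ u := fun f => ⟨1, fun u _ => by simp⟩
    have hsum : ∀ T : Finset (Fin k), T.Nonempty →
        |∑ f ∈ SfsG K α Finset.univ Q r n m, ∏ i ∈ T, (mobg (g i) (f + α i) : ℝ)| ≤
          ε / 2 * (SfsG K α Finset.univ Q r n m).card := by
      intro T hT
      have h1 := hpar n hn0 m hm0
        (hmκ.trans (mul_le_mul_of_nonneg_right (min_le_left _ _) (by positivity)))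
        α g Finset.univ T r hα hdeg hg hT (fun _ => 1) (fun _ => by norm_num) hchi
      simpa only [one_mul] using h1
    have h1 := patt_abs (SfsG K α Finset.univ Q r n m) (fun i f => mobg (g i) (f + α i))
      (fun i f => mobg_cases _ _) σ hσ (ε / 2) (by positivity) hsum
    have hBm : B * m ≤ n := by
      have h2 : (m : ℝ) ≤ 1 / (B + 1) * n :=
        hmκ.trans (mul_le_mul_of_nonneg_right (min_le_right _ _) (by positivity))
      have h3 : ((B : ℝ) + 1) * m ≤ n := by
        calc ((B : ℝ) + 1) * m ≤ (B + 1) * (1 / (B + 1) * n) :=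
              mul_le_mul_of_nonneg_left h2 (by positivity)
          _ = n := by field_simp
      have h4 : (B + 1) * m ≤ n := by exact_mod_cast h3
      nlinarith
    obtain ⟨l1, l2⟩ := hlow n m (by omega) hBm hnB α Finset.univ r hα hdeg
      (fun P hP hPi hPQ => by
        obtain ⟨x, hx⟩ := hadm P hP hPi hPQ
        exact ⟨x, fun i _ => hx i⟩)
    rw [Finset.card_univ, Fintype.card_fin] at l1
    have h5 : (((SfsG K α Finset.univ Q r n m).filter
        (fun f => ∃ i, mobg (g i) (f + α i) = 0)).card : ℝ) ≤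
        ε / 2 * (SfsG K α Finset.univ Q r n m).card := by
      have h50 : (((SfsG K α Finset.univ Q r n m).filter
          (fun f => ∃ i, mobg (g i) (f + α i) = 0)).card : ℝ) ≤
          (((SfsG K α Finset.univ Q r n m).filter (fun f => ∃ i ∈ Finset.univ, ∃ P : K[X],
            Irreducible P ∧ ¬ P ∣ Q ∧ P ^ 2 ∣ f + α i)).card : ℝ) := by
        norm_cast
        refine Finset.card_le_card fun f hf => ?_
        rw [Finset.mem_filter] at hf ⊢
        obtain ⟨hf1, i, hi⟩ := hf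
        exact ⟨hf1, i, Finset.mem_univ i, hsqc f hf1 i hi⟩
      refine (h50.trans l2).trans ?_
      have h6 := hm₁ m hm1
      rw [Real.dist_eq, sub_zero] at h6
      have h7 := (le_abs_self _).trans h6.le
      have hmpos : (0 : ℝ) < (m : ℝ) := by
        have : 0 < m := by omega
        exact_mod_cast this
      have h8 : (2 : ℝ) ^ m ≤ (Fintype.card K : ℝ) ^ m := pow_le_pow_left₀ (by norm_num) hq m
      have h9 : 2 * (k : ℝ) * (Fintype.card K : ℝ) ^ n / (Fintype.card K : ℝ) ^ m ≤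
          ε / 2 * (c * (Fintype.card K : ℝ) ^ n / (m : ℝ) ^ k) := by
        have h10 : 2 * (k : ℝ) / (Fintype.card K : ℝ) ^ m ≤ c * (ε / 2) / (m : ℝ) ^ k := by
          rw [div_le_div_iff₀ (by positivity) (by positivity)]
          have h11 : 2 * (k : ℝ) * (m : ℝ) ^ k ≤ c * (ε / 2) * 2 ^ m := by
            have h12 : 2 * (k : ℝ) * ((m : ℝ) ^ k / 2 ^ m) * 2 ^ m ≤ c * (ε / 2) * 2 ^ m :=
              mul_le_mul_of_nonneg_right h7 (by positivity)
            refine le_trans (le_of_eq ?_) h12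
            field_simp
          exact h11.trans (mul_le_mul_of_nonneg_left h8 (by positivity))
        calc 2 * (k : ℝ) * (Fintype.card K : ℝ) ^ n / (Fintype.card K : ℝ) ^ m
            = 2 * (k : ℝ) / (Fintype.card K : ℝ) ^ m * (Fintype.card K : ℝ) ^ n := by ring
          _ ≤ c * (ε / 2) / (m : ℝ) ^ k * (Fintype.card K : ℝ) ^ n :=
              mul_le_mul_of_nonneg_right h10 (by positivity)
          _ = _ := by ring
      exact h9.trans (mul_le_mul_of_nonneg_left l1 (by positivity))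
    linarith
  · push Not at hadm
    obtain ⟨P, hP, hPi, hPQ, hobs⟩ := hadm
    rw [SfsG_empty α Q r hP hPi hPQ hobs (by omega)]
    simp

end Pool.Agent.H985.Par
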