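import Mathlib
import Pool.Agent.H985.Par.PattG

/-!
# Sign patterns of linear forms in sifted sets (helper985)
-/

set_option autoImplicit false

namespace Pool.Agent.H985.Par

open Polynomial Filter Topology
open scoped Classical
open Pool.Agent.H985.Chow (mob MD)
open Pool.Agent.H985.KP (mobg)
open Pool.Agent.H694.Typ (Mn mem_Mn card_Mn)
open Pool.Agent.H524.Ext (mob_mul_cop mob_of_not mob_mul_self)

variable {K : Type} [Field K] [Fintype K]

/-- `A = s t ^ 2` with `s` squarefree -/
theorem sqf_sq (n : ℕ) : ∀ A : K[X], A.natDegree = n → A ≠ 0 →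
    ∃ s t : K[X], t.Monic ∧ Squarefree s ∧ A = s * t ^ 2 := by
  induction n using Nat.strong_induction_on with
  | _ n ih =>
    intro A hn hA
    by_cases h : Squarefree A
    · exact ⟨A, 1, monic_one, h, by simp⟩
    · unfold Squarefree at h
      push Not at h
      obtain ⟨x, ⟨y, hy⟩, hx⟩ := h
      have hx0 : x ≠ 0 := by
        rintro rfl
        rw [mul_zero, zero_mul] at hy
        exact hA hy
      have hy0 : y ≠ 0 := by
        rintro rfl
        rw [mul_zero] at hy
        exact hA hy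
      have hlc : x.leadingCoeff ≠ 0 := mt leadingCoeff_eq_zero.1 hx0
      have hxd : 0 < x.natDegree := by
        rw [Nat.pos_iff_ne_zero]
        intro h0
        apply hx
        rw [eq_C_of_natDegree_eq_zero h0] at hx0 ⊢
        exact isUnit_C.2 (IsUnit.mk0 _ (fun h1 => hx0 (by rw [h1, C_0])))
      have hy'0 : C (x.leadingCoeff ^ 2) * y ≠ 0 :=
        mul_ne_zero (C_ne_zero.2 (pow_ne_zero 2 hlc)) hy0
      have hy'd : (C (x.leadingCoeff ^ 2) * y).natDegree = y.natDegree := by
        rw [natDegree_C_mul (pow_ne_zero 2 hlc)]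
      have hdeg : A.natDegree = x.natDegree + x.natDegree + y.natDegree := by
        rw [hy, natDegree_mul (mul_ne_zero hx0 hx0) hy0, natDegree_mul hx0 hx0]
      obtain ⟨s, t, ht, hs, hst⟩ := ih y.natDegree (by omega) _ hy'd hy'0
      refine ⟨s, x * C (x.leadingCoeff)⁻¹ * t, (monic_mul_leadingCoeff_inv hx0).mul ht, hs, ?_⟩
      have h1 : (C (x.leadingCoeff) : K[X]) * C (x.leadingCoeff)⁻¹ = 1 := by
        rw [← C_mul, mul_inv_cancel₀ hlc, C_1]
      calc A = x * x * y := hy
        _ = x * x * ((C (x.leadingCoeff) * C (x.leadingCoeff)⁻¹) ^ 2 * y) := by rw [h1]; ring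
        _ = (x * C (x.leadingCoeff)⁻¹) ^ 2 * (C (x.leadingCoeff ^ 2) * y) := by
          rw [C_pow]
          ring
        _ = (x * C (x.leadingCoeff)⁻¹) ^ 2 * (s * t ^ 2) := by rw [hst]
        _ = s * (x * C (x.leadingCoeff)⁻¹ * t) ^ 2 := by ring

/-- the common multiple of the slopes -/
theorem lin_data {k : ℕ} (a : Fin k → K[X]) (ha : ∀ i, a i ≠ 0) :
    ∃ (M : K[X]) (A' s t : Fin k → K[X]), M.Monic ∧ (∀ i, A' i * a i = M) ∧
      (∀ i, A' i = s i * t i ^ 2) ∧ (∀ i, (t i).Monic) ∧ (∀ i, Squarefree (s i)) := by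
  have hA : ∏ i, a i ≠ 0 := Finset.prod_ne_zero_iff.2 fun i _ => ha i
  have h1 : ∀ i : Fin k, ∃ s t : K[X], t.Monic ∧ Squarefree s ∧
      C ((∏ i, a i).leadingCoeff)⁻¹ * ∏ j ∈ Finset.univ.erase i, a j = s * t ^ 2 := by
    intro i
    refine sqf_sq _ _ rfl (mul_ne_zero (C_ne_zero.2 (inv_ne_zero (mt leadingCoeff_eq_zero.1 hA))) ?_)
    exact Finset.prod_ne_zero_iff.2 fun j _ => ha j
  choose s t ht hs hst using h1
  refine ⟨(∏ i, a i) * C ((∏ i, a i).leadingCoeff)⁻¹,
    fun i => C ((∏ i, a i).leadingCoeff)⁻¹ * ∏ j ∈ Finset.univ.erase i, a j, s, t,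
    monic_mul_leadingCoeff_inv hA, fun i => ?_, hst, ht, hs⟩
  have h2 := Finset.mul_prod_erase Finset.univ a (Finset.mem_univ i)
  calc C ((∏ i, a i).leadingCoeff)⁻¹ * (∏ j ∈ Finset.univ.erase i, a j) * a i
      = (a i * ∏ j ∈ Finset.univ.erase i, a j) * C ((∏ i, a i).leadingCoeff)⁻¹ := by ring
    _ = _ := by rw [h2]

/-- the `f` for which no form has an irreducible factor of degree at most `m` -/
noncomputable def Lfs (K : Type) [Field K] [Fintype K] {k : ℕ} (a b : Fin k → K[X]) (n m : ℕ) :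
    Finset K[X] := (Mn K n).filter (fun f => ∀ i, Sft m (a i * f + b i))

section lin

variable {k : ℕ} (a b : Fin k → K[X]) (M : K[X]) (A' s t : Fin k → K[X])

theorem cop_of_cong {M G G' : K[X]} (h : M ∣ G - G') (hc : IsCoprime G' M) : IsCoprime G M := by
  obtain ⟨z, hz⟩ := h
  have h1 : G = G' + M * z := by rw [← hz]; ring
  rw [h1]
  exact IsCoprime.add_mul_left_left hc z

theorem prime_not {P M G : K[X]} (hP : Irreducible P) (hG : IsCoprime G M) (h : P ∣ G) : ¬ P ∣ M :=
  fun h2 => hP.not_isUnit (hG.isUnit_of_dvd' h h2)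

variable (hM : M.Monic) (hAM : ∀ i, A' i * a i = M)

include hM hAM in
theorem lin_image (n m : ℕ) (r : K[X]) (hr : ∀ i, IsCoprime (a i * r + b i) M) :
    SfsG K (fun i => A' i * b i) Finset.univ (M ^ 2) (M * r) (n + M.natDegree) m =
      ((Lfs K a b n m).filter (fun f => M ∣ f - r)).image (fun f => M * f) := by
  have hM0 := hM.ne_zero
  ext F
  unfold SfsG Lfs
  rw [Finset.mem_filter, Finset.mem_image, mem_Mn]
  constructor
  · rintro ⟨⟨h1, h2⟩, h3, h4⟩
    have h5 : M ∣ F := by
      have h6 : M ∣ F - M * r := (dvd_pow_self M two_ne_zero).trans h3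
      exact (dvd_sub_left (dvd_mul_right M r)).1 h6
    obtain ⟨f, rfl⟩ := h5
    have hf : f.Monic := hM.of_mul_monic_left h1
    have hfd : f.natDegree = n := by
      rw [hM.natDegree_mul hf] at h2
      omega
    have hfr : M ∣ f - r := by
      rw [← mul_sub, sq] at h3
      exact (mul_dvd_mul_iff_left hM0).1 h3
    refine ⟨f, ?_, rfl⟩
    rw [Finset.mem_filter, Finset.mem_filter, mem_Mn]
    refine ⟨⟨⟨hf, hfd⟩, fun i P hP hPi hPd => ?_⟩, hfr⟩
    have hc : IsCoprime (a i * f + b i) M := by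
      refine cop_of_cong (G' := a i * r + b i) ?_ (hr i)
      have : a i * f + b i - (a i * r + b i) = a i * (f - r) := by ring
      rw [this]
      exact hfr.mul_left _
    have hPM := prime_not hPi hc hPd
    refine h4 i (Finset.mem_univ i) P hP hPi (fun h => hPM (hPi.prime.dvd_of_dvd_pow h)) ?_
    have : M * f + A' i * b i = A' i * (a i * f + b i) := by rw [← hAM i]; ring
    rw [this]
    exact hPd.mul_left _
  · rintro ⟨f, hf, rfl⟩
    rw [Finset.mem_filter, Finset.mem_filter, mem_Mn] at hf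
    obtain ⟨⟨⟨h1, h2⟩, h3⟩, h4⟩ := hf
    refine ⟨⟨hM.mul h1, by rw [hM.natDegree_mul h1, h2, add_comm]⟩, ?_, fun i _ P hP hPi hPQ hPd => ?_⟩
    · rw [← mul_sub, sq]
      exact mul_dvd_mul_left M h4
    · have hPM : ¬ P ∣ M := fun h => hPQ (h.trans (dvd_pow_self M two_ne_zero))
      have : M * f + A' i * b i = A' i * (a i * f + b i) := by rw [← hAM i]; ring
      rw [this] at hPd
      rcases hPi.prime.dvd_or_dvd hPd with h | h
      · exact absurd (h.trans ⟨a i, (hAM i).symm⟩) hPM
      · exact h3 i P hP hPi h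

variable (hst : ∀ i, A' i = s i * t i ^ 2) (ht : ∀ i, (t i).Monic) (hs : ∀ i, Squarefree (s i))

include hAM hst ht in
theorem lin_mobg (f : K[X]) (i : Fin k) (hc : IsCoprime (a i * f + b i) M) :
    mobg (t i) (M * f + A' i * b i) = mob (s i) * mob (a i * f + b i) := by
  have h1 : M * f + A' i * b i = t i ^ 2 * (s i * (a i * f + b i)) := by
    rw [← hAM i, hst i]
    ring
  unfold mobg
  rw [h1, if_pos (dvd_mul_right _ _),
    mul_div_cancel_left₀ _ (pow_ne_zero 2 (ht i).ne_zero), mob_mul_cop]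
  have h2 : s i ∣ M := ⟨t i ^ 2 * a i, by rw [← hAM i, hst i]; ring⟩
  exact (hc.of_isCoprime_of_dvd_right h2).symm

include hM hAM hst ht hs in
/-- the patterns in one class -/
theorem lin_class [CharP K 2] (ε : ℝ) (hε : 0 < ε) :
    ∃ κ : ℝ, 0 < κ ∧ ∃ m₀ n₀ : ℕ, ∀ n : ℕ, n₀ ≤ n → ∀ m : ℕ, m₀ ≤ m → (m : ℝ) ≤ κ * n →
      ∀ (b : Fin k → K[X]) (r : K[X]), (∀ i, (b i).natDegree < n + (a i).natDegree) →
      (∀ i j, i ≠ j → a i * b j ≠ a j * b i) → (∀ i, IsCoprime (a i * r + b i) M) →
      ∀ σ : Fin k → ℤ, (∀ i, σ i = 1 ∨ σ i = -1) →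
        |((((Lfs K a b n m).filter (fun f => M ∣ f - r)).filter
            (fun f => ∀ i, mob (a i * f + b i) = σ i)).card : ℝ) -
          ((Lfs K a b n m).filter (fun f => M ∣ f - r)).card / 2 ^ k| ≤
          ε * ((Lfs K a b n m).filter (fun f => M ∣ f - r)).card := by
  have hM0 := hM.ne_zero
  obtain ⟨κ, hκ, m₀, n₀, hp⟩ := pattG K k (M ^ 2) (pow_ne_zero 2 hM0) ε hε
  refine ⟨κ, hκ, m₀, n₀, fun n hn m hm hmκ b r hb hne hr σ hσ => ?_⟩
  have ha0 : ∀ i, a i ≠ 0 := fun i h0 => hM0 (by rw [← hAM i, h0, mul_zero])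
  have hA0 : ∀ i, A' i ≠ 0 := fun i h0 => hM0 (by rw [← hAM i, h0, zero_mul])
  have hdegM : ∀ i, (A' i).natDegree + (a i).natDegree = M.natDegree := by
    intro i
    rw [← natDegree_mul (hA0 i) (ha0 i), hAM i]
  have hinj : Function.Injective (fun i => A' i * b i) := by
    intro i j hij
    by_contra hne'
    refine hne i j hne' ?_
    have h1 : A' i * b i = A' j * b j := hij
    have h2 : M * (a j * b i) = M * (a i * b j) := by
      calc M * (a j * b i) = (A' i * b i) * (a i * a j) := by rw [← hAM i]; ring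
        _ = (A' j * b j) * (a i * a j) := by rw [h1]
        _ = M * (a i * b j) := by rw [← hAM j]; ring
    exact (mul_left_cancel₀ hM0 h2).symm
  have hdeg : ∀ i, (A' i * b i).natDegree < n + M.natDegree := by
    intro i
    have h1 := natDegree_mul_le (p := A' i) (q := b i)
    have h2 := hb i
    have h3 := hdegM i
    omega
  have hcop : ∀ f : K[X], M ∣ f - r → ∀ i, IsCoprime (a i * f + b i) M := by
    intro f hf i
    refine cop_of_cong (G' := a i * r + b i) ?_ (hr i)
    have : a i * f + b i - (a i * r + b i) = a i * (f - r) := by ring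
    rw [this]
    exact hf.mul_left _
  have himg := lin_image a b M A' hM hAM n m r hr
  have hsqc : Sqc (fun i => A' i * b i) t (M ^ 2) (M * r) (n + M.natDegree) m := by
    intro F hF i h0
    rw [himg, Finset.mem_image] at hF
    obtain ⟨f, hf, rfl⟩ := hF
    unfold Lfs at hf
    rw [Finset.mem_filter, Finset.mem_filter, mem_Mn] at hf
    have hc := hcop f hf.2 i
    rw [lin_mobg a b M A' s t hAM hst ht f i hc] at h0
    have h1 : mob (a i * f + b i) = 0 := by
      rcases mul_eq_zero.1 h0 with h | h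
      · exfalso
        rcases mob_sqf (hs i) with h' | h' <;> rw [h'] at h <;> norm_num at h
      · exact h
    have hG0 : a i * f + b i ≠ 0 := by
      intro h2
      have h3 : a i * f = - b i := eq_neg_of_add_eq_zero_left h2
      have h4 := congrArg natDegree h3
      rw [natDegree_neg, natDegree_mul (ha0 i) hf.1.1.1.ne_zero, hf.1.1.2] at h4
      have := hb i
      omega
    have h2 : ¬ Squarefree (a i * f + b i) := by
      intro h3
      rcases mob_sqf h3 with h' | h' <;> rw [h'] at h1 <;> norm_num at h1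
    unfold Squarefree at h2
    push Not at h2
    obtain ⟨x, hx, hxu⟩ := h2
    have hx0 : x ≠ 0 := by
      rintro rfl
      rw [mul_zero, zero_dvd_iff] at hx
      exact hG0 hx
    obtain ⟨P, hP, hPx⟩ := WfDvdMonoid.exists_irreducible_factor hxu hx0
    have hP2 : P ^ 2 ∣ a i * f + b i := by
      rw [sq]
      exact (mul_dvd_mul hPx hPx).trans hx
    have hPG : P ∣ a i * f + b i := (dvd_pow_self P two_ne_zero).trans hP2
    refine ⟨P, hP, fun h => prime_not hP hc hPG (hP.prime.dvd_of_dvd_pow h), ?_⟩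
    have : M * f + A' i * b i = A' i * (a i * f + b i) := by rw [← hAM i]; ring
    rw [this]
    exact hP2.mul_left _
  have htQ : ∀ i, (t i).Monic ∧ t i ∣ M ^ 2 := by
    intro i
    refine ⟨ht i, ?_⟩
    have h1 : t i ∣ M := ⟨s i * t i * a i, by rw [← hAM i, hst i]; ring⟩
    exact h1.trans (dvd_pow_self M two_ne_zero)
  have h1 := hp (n + M.natDegree) (by omega) m hm
    (hmκ.trans (mul_le_mul_of_nonneg_left (by exact_mod_cast Nat.le_add_right _ _) hκ.le))
    (fun i => A' i * b i) t (M * r) hinj hdeg htQ hsqc (fun i => mob (s i) * σ i) (fun i => by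
      rcases mob_sqf (hs i) with h' | h' <;> rcases hσ i with h'' | h'' <;> rw [h', h''] <;> norm_num)
  have hinjM : Function.Injective (fun f : K[X] => M * f) := fun f g h => mul_left_cancel₀ hM0 h
  have hc1 : (SfsG K (fun i => A' i * b i) Finset.univ (M ^ 2) (M * r) (n + M.natDegree) m).card =
      ((Lfs K a b n m).filter (fun f => M ∣ f - r)).card := by
    rw [himg, Finset.card_image_of_injective _ hinjM]
  have hc2 : ((SfsG K (fun i => A' i * b i) Finset.univ (M ^ 2) (M * r) (n + M.natDegree) m).filter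
      (fun F => ∀ i, mobg (t i) (F + A' i * b i) = mob (s i) * σ i)).card =
      (((Lfs K a b n m).filter (fun f => M ∣ f - r)).filter
            (fun f => ∀ i, mob (a i * f + b i) = σ i)).card := by
    rw [himg, Finset.filter_image, Finset.card_image_of_injective _ hinjM]
    congr 1
    refine Finset.filter_congr fun f hf => forall_congr' fun i => ?_
    rw [Finset.mem_filter] at hf
    rw [lin_mobg a b M A' s t hAM hst ht f i (hcop f hf.2 i)]
    rcases mob_sqf (hs i) with h' | h' <;> rw [h'] <;> constructor <;> intro h <;> omega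
  rw [hc1] at h1
  rw [← hc2]
  exact h1

end lin

/-- **Equidistribution of the sign patterns** of linear forms in sifted sets. -/
theorem lin_patt (K : Type) [Field K] [Fintype K] [CharP K 2] {k : ℕ} (a : Fin k → K[X])
    (ha : ∀ i, a i ≠ 0) (ε : ℝ) (hε : 0 < ε) :
    ∃ κ : ℝ, 0 < κ ∧ ∃ m₀ n₀ : ℕ, ∀ n : ℕ, n₀ ≤ n → ∀ m : ℕ, m₀ ≤ m → (m : ℝ) ≤ κ * n →
      ∀ (b : Fin k → K[X]), (∀ i, (b i).natDegree < n + (a i).natDegree) →
      (∀ i j, i ≠ j → a i * b j ≠ a j * b i) →
      ∀ σ : Fin k → ℤ, (∀ i, σ i = 1 ∨ σ i = -1) →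
        |(((Lfs K a b n m).filter (fun f => ∀ i, mob (a i * f + b i) = σ i)).card : ℝ) -
          (Lfs K a b n m).card / 2 ^ k| ≤ ε * (Lfs K a b n m).card := by
  obtain ⟨M, A', s, t, hM, hAM, hst, ht, hs⟩ := lin_data a ha
  obtain ⟨κ, hκ, m₀, n₀, hp⟩ := lin_class a M A' s t hM hAM hst ht hs ε hε
  refine ⟨κ, hκ, max m₀ M.natDegree, n₀, fun n hn m hm hmκ b hb hne σ hσ => ?_⟩
  have hm0 : m₀ ≤ m := le_trans (le_max_left _ _) hm
  have hmM : M.natDegree ≤ m := le_trans (le_max_right _ _) hm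
  set L := Lfs K a b n m with hL
  have hmaps : ∀ f ∈ L, f %ₘ M ∈ L.image (fun f => f %ₘ M) := fun f hf =>
    Finset.mem_image_of_mem _ hf
  have hfib : ∀ r ∈ L.image (fun f => f %ₘ M), ∀ f : K[X], f %ₘ M = r ↔ M ∣ f - r := by
    intro r hr f
    rw [Finset.mem_image] at hr
    obtain ⟨f₀, -, rfl⟩ := hr
    constructor
    · intro h
      rw [← h]
      have h1 := modByMonic_add_div f M
      exact ⟨f /ₘ M, by linear_combination -h1⟩
    · intro h
      have h1 := modByMonic_add_div f₀ M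
      have h2 : M ∣ f - f₀ := by
        have h3 : f - f₀ = (f - f₀ %ₘ M) - M * (f₀ /ₘ M) := by linear_combination h1
        rw [h3]
        exact dvd_sub h (dvd_mul_right _ _)
      exact (Polynomial.modByMonic_eq_of_dvd_sub hM h2)
  have hcard1 : (L.card : ℝ) = ∑ r ∈ L.image (fun f => f %ₘ M),
      ((L.filter (fun f => M ∣ f - r)).card : ℝ) := by
    rw [Finset.card_eq_sum_card_fiberwise hmaps]
    push_cast
    refine Finset.sum_congr rfl fun r hr => ?_
    congr 2
    exact Finset.filter_congr fun f _ => hfib r hr f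
  have hcard2 : ((L.filter (fun f => ∀ i, mob (a i * f + b i) = σ i)).card : ℝ) =
      ∑ r ∈ L.image (fun f => f %ₘ M),
      (((L.filter (fun f => M ∣ f - r)).filter (fun f => ∀ i, mob (a i * f + b i) = σ i)).card : ℝ) := by
    have hmaps2 : ∀ f ∈ L.filter (fun f => ∀ i, mob (a i * f + b i) = σ i),
        f %ₘ M ∈ L.image (fun f => f %ₘ M) := fun f hf => hmaps f (Finset.mem_filter.1 hf).1
    rw [Finset.card_eq_sum_card_fiberwise hmaps2]
    push_cast
    refine Finset.sum_congr rfl fun r hr => ?_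
    congr 2
    rw [Finset.filter_comm]
    refine congrArg _ ?_
    exact Finset.filter_congr fun f _ => hfib r hr f
  rw [hcard1, hcard2, Finset.sum_div, ← Finset.sum_sub_distrib, Finset.mul_sum]
  refine (Finset.abs_sum_le_sum_abs _ _).trans (Finset.sum_le_sum fun r hr => ?_)
  refine hp n hn m hm0 hmκ b r hb hne (fun i => ?_) σ hσ
  -- the class is good
  rw [Finset.mem_image] at hr
  obtain ⟨f₀, hf₀, rfl⟩ := hr
  rw [hL] at hf₀
  unfold Lfs at hf₀
  rw [Finset.mem_filter] at hf₀
  have h1 : IsCoprime (a i * f₀ + b i) M := by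
    refine isCoprime_of_irreducible_dvd (fun h => hM.ne_zero h.2) ?_
    intro P hP hPG hPM
    have h2 := Sft_irr (hf₀.2 i) hP hPG
    have h3 := natDegree_le_of_dvd hPM hM.ne_zero
    omega
  refine cop_of_cong (G' := a i * f₀ + b i) ?_ h1
  have h2 := modByMonic_add_div f₀ M
  exact ⟨- (a i * (f₀ /ₘ M)), by linear_combination a i * h2⟩

end Pool.Agent.H985.Par
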