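import Mathlib
import Pool.Agent.H985.Par.Lin

/-!
# Almost primes with prescribed parity, linear forms (helper985)
-/

set_option autoImplicit false

namespace Pool.Agent.H985.Par

open Polynomial Filter Topology
open scoped Classical
open Pool.Agent.H985.Chow (mob MD)
open Pool.Agent.H985.KP (mobg)
open Pool.Agent.H694.Typ (Mn mem_Mn card_Mn)
open UniqueFactorizationMonoid (factors)

variable {K : Type} [Field K] [Fintype K]

/-- a good residue class -/
theorem good_class {k : ℕ} (a b : Fin k → K[X]) (M : K[X]) (hM : M.Monic)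
    (hadm : ∀ P : K[X], P.Monic → Irreducible P → ∃ x : K[X], ∀ i, ¬ P ∣ a i * x + b i) :
    ∃ r : K[X], ∀ i, IsCoprime (a i * r + b i) M := by
  have hfin : {P : K[X] | P.Monic ∧ Irreducible P ∧ P ∣ M}.Finite := by
    refine Set.Finite.subset (Finset.finite_toSet (Pool.Agent.H694.Typ.PU K M.natDegree)) ?_
    rintro P ⟨h1, h2, h3⟩
    rw [Finset.mem_coe, Pool.Agent.H694.Typ.mem_PU]
    exact ⟨h1, h2, natDegree_le_of_dvd h3 hM.ne_zero⟩
  choose! x hx using hadm
  have := hfin.to_subtype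
  obtain ⟨r, hr⟩ := Ideal.exists_forall_sub_mem_ideal
    (I := fun P : {P : K[X] | P.Monic ∧ Irreducible P ∧ P ∣ M} => Ideal.span {(P : K[X])})
    (fun P P' hne => by
      rw [Function.onFun, Ideal.isCoprime_span_singleton_iff]
      refine (P.2.2.1.coprime_iff_not_dvd).2 fun h => hne ?_
      have h1 := P.2.2.1.associated_of_dvd P'.2.2.1 h
      exact Subtype.ext (eq_of_monic_of_associated P.2.1 P'.2.1 h1)) (fun P => x P)
  refine ⟨r, fun i => ?_⟩
  refine isCoprime_of_irreducible_dvd (fun h => hM.ne_zero h.2) ?_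
  intro P hP hPG hPM
  have hP0 : P ≠ 0 := hP.ne_zero
  have hu : IsUnit (C (P.leadingCoeff)⁻¹ : K[X]) :=
    isUnit_C.2 (IsUnit.mk0 _ (inv_ne_zero (mt leadingCoeff_eq_zero.1 hP0)))
  have h1 : (P * C (P.leadingCoeff)⁻¹).Monic := monic_mul_leadingCoeff_inv hP0
  have h2 : Irreducible (P * C (P.leadingCoeff)⁻¹) := (irreducible_mul_isUnit hu).2 hP
  have h3 : P * C (P.leadingCoeff)⁻¹ ∣ M := (hu.mul_right_dvd).2 hPM
  have h4 : P * C (P.leadingCoeff)⁻¹ ∣ a i * r + b i := (hu.mul_right_dvd).2 hPG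
  have h5 := hr ⟨_, h1, h2, h3⟩
  rw [Ideal.mem_span_singleton] at h5
  refine hx _ h1 h2 i ?_
  have h6 : a i * x (P * C (P.leadingCoeff)⁻¹) + b i = (a i * r + b i) -
      a i * (r - x (P * C (P.leadingCoeff)⁻¹)) := by ring
  rw [h6]
  exact dvd_sub h4 (h5.mul_left _)

/-- **Almost prime values of linear forms with prescribed parities**. -/
theorem lin_few (K : Type) [Field K] [Fintype K] [CharP K 2] {k : ℕ} (a : Fin k → K[X])
    (ha : ∀ i, a i ≠ 0) :
    ∃ (r : ℕ) (c : ℝ), 0 < c ∧ ∃ n₀ : ℕ, ∀ n : ℕ, n₀ ≤ n →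
      ∀ b : Fin k → K[X], (∀ i, (b i).natDegree < n + (a i).natDegree) →
      (∀ i j, i ≠ j → a i * b j ≠ a j * b i) →
      (∀ P : K[X], P.Monic → Irreducible P → ∃ x : K[X], ∀ i, ¬ P ∣ a i * x + b i) →
      ∀ σ : Fin k → ℤ, (∀ i, σ i = 1 ∨ σ i = -1) →
        c * (Fintype.card K : ℝ) ^ n / (n : ℝ) ^ k ≤
          (((Mn K n).filter (fun f => ∀ i, mob (a i * f + b i) = σ i ∧
            Multiset.card (factors (a i * f + b i)) ≤ r ∧
              ∀ P : K[X], Irreducible P → P ∣ a i * f + b i → n ≤ (r + 1) * P.natDegree)).card :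
                ℝ) := by
  obtain ⟨κ, hκ, m₀, n₀, hp⟩ := lin_patt K a ha (1 / 2 / 2 ^ k) (by positivity)
  obtain ⟨M, A', s, t, hM, hAM, hst, ht, hs⟩ := lin_data a ha
  have hM0 := hM.ne_zero
  obtain ⟨c, hc, B, hlow⟩ := s_lowG K k (M ^ 2) (pow_ne_zero 2 hM0)
  obtain ⟨κ', hκ'⟩ : ∃ κ' : ℝ, κ' = min κ (1 / (B + 1)) := ⟨_, rfl⟩
  have hκ'0 : 0 < κ' := by rw [hκ']; exact lt_min hκ (by positivity)
  obtain ⟨r, hr⟩ := exists_nat_ge (2 / κ')
  refine ⟨r, c / 2 / 2 ^ k, by positivity, max (max n₀ ⌈((m₀ : ℝ) + 2) / κ'⌉₊)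
    (max B M.natDegree), ?_⟩
  intro n hn b hb hne hadm σ hσ
  have hn0 : n₀ ≤ n := le_trans (le_max_left _ _) (le_trans (le_max_left _ _) hn)
  have hnB : B ≤ n := le_trans (le_max_left _ _) (le_trans (le_max_right _ _) hn)
  have hnM : M.natDegree ≤ n := le_trans (le_max_right _ _) (le_trans (le_max_right _ _) hn)
  have hn1 : ((m₀ : ℝ) + 2) / κ' ≤ n := by
    have h1 : ⌈((m₀ : ℝ) + 2) / κ'⌉₊ ≤ n := le_trans (le_max_right _ _) (le_trans (le_max_left _ _) hn)
    exact (Nat.le_ceil _).trans (by exact_mod_cast h1)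
  have hn2 : (m₀ : ℝ) + 2 ≤ κ' * n := by
    rw [div_le_iff₀ hκ'0] at hn1
    linarith
  obtain ⟨m, hm⟩ : ∃ m : ℕ, m = ⌊κ' * n⌋₊ := ⟨_, rfl⟩
  have hm1 : (m : ℝ) ≤ κ' * n := by
    rw [hm]
    exact Nat.floor_le (by positivity)
  have hm2 : κ' * n < (m : ℝ) + 1 := by
    rw [hm]
    exact Nat.lt_floor_add_one _
  have hm3 : m₀ + 1 ≤ m := by
    have : (m₀ : ℝ) + 1 < (m : ℝ) := by linarith
    have h : m₀ + 1 < m := by exact_mod_cast this
    omega
  have hmκ : (m : ℝ) ≤ κ * n := hm1.trans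
    (mul_le_mul_of_nonneg_right (by rw [hκ']; exact min_le_left _ _) (by positivity))
  have hB3 : ((B : ℝ) + 1) * m ≤ n := by
    have h2 : (m : ℝ) ≤ 1 / (B + 1) * n := hm1.trans
      (mul_le_mul_of_nonneg_right (by rw [hκ']; exact min_le_right _ _) (by positivity))
    calc ((B : ℝ) + 1) * m ≤ (B + 1) * (1 / (B + 1) * n) :=
          mul_le_mul_of_nonneg_left h2 (by positivity)
      _ = n := by field_simp
  have hBm : B * m ≤ n := by
    have h4 : (B + 1) * m ≤ n := by exact_mod_cast hB3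
    nlinarith
  have hmn : (m : ℝ) ≤ n := by
    have h4 : (0 : ℝ) ≤ (B : ℝ) * m := by positivity
    linarith
  have hmpos : (0 : ℝ) < m := by
    have : 0 < m := by omega
    exact_mod_cast this
  have ha0 : ∀ i, a i ≠ 0 := ha
  have hA0 : ∀ i, A' i ≠ 0 := fun i h0 => hM0 (by rw [← hAM i, h0, zero_mul])
  have hdegM : ∀ i, (A' i).natDegree + (a i).natDegree = M.natDegree := by
    intro i
    rw [← natDegree_mul (hA0 i) (ha0 i), hAM i]
  have hinj : Function.Injective (fun i => A' i * b i) := by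
    intro i j hij
    by_contra hne'
    refine hne i j hne' ?_
    have h1 : A' i * b i = A' j * b j := hij
    have h2 : M * (a j * b i) = M * (a i * b j) := by
      calc M * (a j * b i) = (A' i * b i) * (a i * a j) := by rw [← hAM i]; ring
        _ = (A' j * b j) * (a i * a j) := by rw [h1]
        _ = M * (a i * b j) := by rw [← hAM j]; ring
    exact (mul_left_cancel₀ hM0 h2).symm
  have hdeg : ∀ i, (A' i * b i).natDegree < n + M.natDegree := by
    intro i
    have h1 := natDegree_mul_le (p := A' i) (q := b i)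
    have h2 := hb i
    have h3 := hdegM i
    omega
  -- the lower bound for the sifted set
  have l1 : c * (Fintype.card K : ℝ) ^ n / (m : ℝ) ^ k ≤ (Lfs K a b n m).card := by
    obtain ⟨r₀, hr₀⟩ := good_class a b M hM hadm
    obtain ⟨h1, -⟩ := hlow (n + M.natDegree) m (by omega) (by omega) (by omega)
      (fun i => A' i * b i) Finset.univ (M * r₀) hinj hdeg (fun P hP hPi hPQ => by
        obtain ⟨x, hx⟩ := hadm P hP hPi
        have hPM : ¬ P ∣ M := fun h => hPQ (h.trans (dvd_pow_self M two_ne_zero))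
        refine ⟨M * x, fun i _ h => ?_⟩
        have : M * x + A' i * b i = A' i * (a i * x + b i) := by rw [← hAM i]; ring
        rw [this] at h
        rcases hPi.prime.dvd_or_dvd h with h | h
        · exact hPM (h.trans ⟨a i, (hAM i).symm⟩)
        · exact hx i h)
    rw [lin_image a b M A' hM hAM n m r₀ hr₀, Finset.card_image_of_injective _
      (fun f g h => mul_left_cancel₀ hM0 h), Finset.card_univ, Fintype.card_fin] at h1
    have h2 : (((Lfs K a b n m).filter (fun f => M ∣ f - r₀)).card : ℝ) ≤ (Lfs K a b n m).card := by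
      exact_mod_cast Finset.card_filter_le _ _
    refine le_trans ?_ (h1.trans h2)
    refine div_le_div_of_nonneg_right ?_ (by positivity)
    refine mul_le_mul_of_nonneg_left ?_ hc.le
    exact pow_le_pow_right₀ (by exact_mod_cast Fintype.card_pos) (by omega)
  have h5 := hp n hn0 m (by omega) hmκ b hb hne σ hσ
  rw [abs_le] at h5
  have h6 : c * (Fintype.card K : ℝ) ^ n / (n : ℝ) ^ k ≤ (Lfs K a b n m).card := by
    refine le_trans ?_ l1
    exact div_le_div_of_nonneg_left (by positivity) (by positivity)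
      (pow_le_pow_left₀ hmpos.le hmn k)
  have h7 : c / 2 / 2 ^ k * (Fintype.card K : ℝ) ^ n / (n : ℝ) ^ k ≤
      (((Lfs K a b n m).filter (fun f => ∀ i, mob (a i * f + b i) = σ i)).card : ℝ) := by
    have e1 : c / 2 / 2 ^ k * (Fintype.card K : ℝ) ^ n / (n : ℝ) ^ k =
        (1 / 2 / 2 ^ k) * (c * (Fintype.card K : ℝ) ^ n / (n : ℝ) ^ k) := by ring
    have e2 : ((Lfs K a b n m).card : ℝ) / 2 ^ k - 1 / 2 / 2 ^ k * (Lfs K a b n m).card =
        1 / 2 / 2 ^ k * (Lfs K a b n m).card := by ring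
    rw [e1]
    have e3 := mul_le_mul_of_nonneg_left h6 (show (0 : ℝ) ≤ 1 / 2 / 2 ^ k by positivity)
    linarith [h5.1]
  refine h7.trans ?_
  norm_cast
  refine Finset.card_le_card fun f hf => ?_
  unfold Lfs at hf
  rw [Finset.mem_filter, Finset.mem_filter] at hf
  obtain ⟨⟨hf1, hf2⟩, hf3⟩ := hf
  rw [Finset.mem_filter]
  have hf1' := hf1
  rw [mem_Mn] at hf1'
  refine ⟨hf1, fun i => ⟨hf3 i, ?_, ?_⟩⟩
  · have hG0 : a i * f + b i ≠ 0 := by
      intro h2
      have h3 : a i * f = - b i := eq_neg_of_add_eq_zero_left h2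
      have h4 := congrArg natDegree h3
      rw [natDegree_neg, natDegree_mul (ha0 i) hf1'.1.ne_zero, hf1'.2] at h4
      have := hb i
      omega
    have hGd : (a i * f + b i).natDegree ≤ n + n := by
      refine (natDegree_add_le _ _).trans (max_le ?_ ?_)
      · refine natDegree_mul_le.trans ?_
        have := hdegM i
        omega
      · have := hb i
        have := hdegM i
        omega
    have h8 := factors_le hG0 hGd (hf2 i)
    have h9 : (Multiset.card (factors (a i * f + b i)) : ℝ) * (κ' * n) ≤ 2 * n := by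
      have h10 : ((Multiset.card (factors (a i * f + b i)) : ℝ)) * ((m : ℝ) + 1) ≤ 2 * n := by
        have h8' : (Multiset.card (factors (a i * f + b i))) * (m + 1) ≤ 2 * n := by omega
        exact_mod_cast h8'
      refine le_trans ?_ h10
      exact mul_le_mul_of_nonneg_left hm2.le (by positivity)
    have hnpos : (0 : ℝ) < n := lt_of_lt_of_le hmpos hmn
    have h11 : (Multiset.card (factors (a i * f + b i)) : ℝ) * κ' ≤ 2 := by
      have h12 : ((Multiset.card (factors (a i * f + b i)) : ℝ) * κ') * n ≤ 2 * n := by linarith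
      exact le_of_mul_le_mul_right h12 hnpos
    have h13 : (Multiset.card (factors (a i * f + b i)) : ℝ) ≤ r := by
      refine le_trans ?_ hr
      rw [le_div_iff₀ hκ'0]
      exact h11
    exact_mod_cast h13
  · intro P hP hPd
    have h8 := Sft_irr (hf2 i) hP hPd
    have h9 : (n : ℝ) ≤ ((r : ℝ) + 1) * P.natDegree := by
      have h10 : ((m : ℝ) + 1) ≤ P.natDegree := by exact_mod_cast h8
      have h11 : (n : ℝ) ≤ r * (κ' * n) := by
        have : 1 ≤ r * κ' := by
          rw [div_le_iff₀ hκ'0] at hr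
          linarith
        have hn' : (0 : ℝ) ≤ n := by positivity
        nlinarith
      have h12 : r * (κ' * n) ≤ (r : ℝ) * P.natDegree :=
        mul_le_mul_of_nonneg_left (by linarith) (by positivity)
      have h13 : (0 : ℝ) ≤ P.natDegree := by positivity
      linarith
    exact_mod_cast h9

end Pool.Agent.H985.Par
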