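import Mathlib
import Pool.Agent.H985.Par.PattG
import Pool.Agent.H985.Cor.StmCor6
import Pool.Agent.H524.Cw.Lio

/-!
# Joint correlations of almost primes and of the Liouville function (helper985)
-/

set_option autoImplicit false

namespace Pool.Agent.H985.Par

open Polynomial Filter Topology
open scoped Classical
open Pool.Agent.H985.Chow (mob MD)
open Pool.Agent.H985.KP (mobg)
open Pool.Agent.H694.Typ (Mn mem_Mn card_Mn)
open Pool.Agent.H524.Cw (lio lamD ML mem_ML abs_lio abs_lamD lamD_diff abs_prod_sub' Mn_add)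
open Pool.Agent.H524.Cw (msq)

variable {K : Type} [Field K] [Fintype K]

theorem msq_mobg (d F : K[X]) : msq d F = mobg d F := rfl

/-- the product of all monic polynomials of degree at most `G` -/
noncomputable def QG (K : Type) [Field K] [Fintype K] (G : ℕ) : K[X] := ∏ g ∈ ML K G, g

theorem QG_monic (G : ℕ) : (QG K G).Monic :=
  monic_prod_of_monic _ _ fun g hg => (mem_ML.1 hg).1

theorem dvd_QG {G : ℕ} {g : K[X]} (hg : g ∈ ML K G) : g ∣ QG K G :=
  Finset.dvd_prod_of_mem (fun g => g) hg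

theorem prime_QG {G : ℕ} {P : K[X]} (hP : Irreducible P) (h : P ∣ QG K G) : P.natDegree ≤ G := by
  unfold QG at h
  obtain ⟨g, hg, hPg⟩ := (hP.prime.dvd_finset_prod_iff _).1 h
  rw [mem_ML] at hg
  exact (natDegree_le_of_dvd hPg hg.1.ne_zero).trans hg.2

/-- one class of the sifted set -/
theorem SfsA_class {k : ℕ} (α : Fin k → K[X]) (A : Finset (Fin k)) (n m G : ℕ) (hm : G ≤ m)
    {r : K[X]} (hr : r ∈ (SfsA K α A n m).image (fun f => f %ₘ QG K G)) :
    SfsG K α A (QG K G) r n m = (SfsA K α A n m).filter (fun f => QG K G ∣ f - r) := by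
  rw [Finset.mem_image] at hr
  obtain ⟨f₀, hf₀, rfl⟩ := hr
  have hQ := QG_monic (K := K) G
  unfold SfsA at hf₀
  rw [Finset.mem_filter] at hf₀
  ext f
  unfold SfsG SfsA
  rw [Finset.mem_filter, Finset.mem_filter, Finset.mem_filter]
  constructor
  · rintro ⟨h1, h2, h3⟩
    refine ⟨⟨h1, fun i hi P hP hPi hPd => ?_⟩, h2⟩
    by_cases hPQ : P ∣ QG K G
    · exfalso
      have h4 : P ∣ f₀ + α i := by
        have h5 := modByMonic_add_div f₀ (QG K G)
        have h6 : f₀ + α i = (f + α i) - (f - f₀ %ₘ QG K G) + QG K G * (f₀ /ₘ QG K G) := by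
          linear_combination -h5
        rw [h6]
        exact dvd_add (dvd_sub hPd (hPQ.trans h2)) (hPQ.mul_right _)
      have h7 := hf₀.2 i hi P hP hPi h4
      have h8 := prime_QG hPi hPQ
      omega
    · exact h3 i hi P hP hPi hPQ hPd
  · rintro ⟨⟨h1, h2⟩, h3⟩
    exact ⟨h1, h3, fun i hi P hP hPi _ hPd => h2 i hi P hP hPi hPd⟩

/-- sums over the sifted set as sums over the classes -/
theorem SfsA_sum {k : ℕ} (α : Fin k → K[X]) (A : Finset (Fin k)) (n m G : ℕ) (hm : G ≤ m)
    (F : K[X] → ℝ) :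
    ∑ f ∈ SfsA K α A n m, F f = ∑ r ∈ (SfsA K α A n m).image (fun f => f %ₘ QG K G),
      ∑ f ∈ SfsG K α A (QG K G) r n m, F f := by
  have hQ := QG_monic (K := K) G
  rw [← Finset.sum_fiberwise_of_maps_to
    (fun f hf => Finset.mem_image_of_mem (fun f => f %ₘ QG K G) hf)]
  refine Finset.sum_congr rfl fun r hr => ?_
  rw [SfsA_class α A n m G hm hr]
  refine Finset.sum_congr (Finset.filter_congr fun f _ => ?_) fun _ _ => rfl
  rw [Finset.mem_image] at hr
  obtain ⟨f₀, -, rfl⟩ := hr
  constructor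
  · intro h
    rw [← h]
    have h1 := modByMonic_add_div f (QG K G)
    exact ⟨f /ₘ QG K G, by linear_combination -h1⟩
  · intro h
    have h1 := modByMonic_add_div f₀ (QG K G)
    have h2 : QG K G ∣ f - f₀ := by
      have h3 : f - f₀ = (f - f₀ %ₘ QG K G) - QG K G * (f₀ /ₘ QG K G) := by linear_combination h1
      rw [h3]
      exact dvd_sub h (dvd_mul_right _ _)
    exact (Polynomial.modByMonic_eq_of_dvd_sub hQ h2)

/-- **Joint correlations**: almost primes at the coordinates in `A`, Liouville at those in `S`. -/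
theorem joint (ht : S_tail) (K : Type) [Field K] [Fintype K] [CharP K 2] (k : ℕ) (ε : ℝ)
    (hε : 0 < ε) :
    ∃ κ : ℝ, 0 < κ ∧ ∃ m₀ n₀ : ℕ, ∀ n : ℕ, n₀ ≤ n → ∀ m : ℕ, m₀ ≤ m → (m : ℝ) ≤ κ * n →
      ∀ (α : Fin k → K[X]) (A S : Finset (Fin k)), Function.Injective α →
      (∀ i, (α i).natDegree < n) → S.Nonempty →
        |∑ f ∈ SfsA K α A n m, ∏ i ∈ S, (lio (f + α i) : ℝ)| ≤ ε * (SfsA K α A n m).card := by
  obtain ⟨G, κ₁, hκ₁, m₁, n₁, htail⟩ := ht K k (ε / (2 * (k + 1))) (by positivity)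
  set N : ℕ := (Fintype.piFinset (fun _ : Fin k => ML K G)).card with hN
  obtain ⟨κ₂, hκ₂, m₂, n₂, hpar⟩ := s_parG K k (QG K G) (ε / (2 * (N + 1)))
    (QG_monic (K := K) G).ne_zero (by positivity)
  refine ⟨min κ₁ κ₂, lt_min hκ₁ hκ₂, max (max m₁ m₂) G, max n₁ n₂,
    fun n hn m hm hmκ α A S hα hdeg hS => ?_⟩
  have hn1 : n₁ ≤ n := le_trans (le_max_left _ _) hn
  have hn2 : n₂ ≤ n := le_trans (le_max_right _ _) hn
  have hm1 : m₁ ≤ m := le_trans (le_max_left _ _) (le_trans (le_max_left _ _) hm)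
  have hm2 : m₂ ≤ m := le_trans (le_max_right _ _) (le_trans (le_max_left _ _) hm)
  have hmG : G ≤ m := le_trans (le_max_right _ _) hm
  have hmκ1 : (m : ℝ) ≤ κ₁ * n := hmκ.trans
    (mul_le_mul_of_nonneg_right (min_le_left _ _) (by positivity))
  have hmκ2 : (m : ℝ) ≤ κ₂ * n := hmκ.trans
    (mul_le_mul_of_nonneg_right (min_le_right _ _) (by positivity))
  have hc0 : (0 : ℝ) ≤ (SfsA K α A n m).card := by positivity
  -- the truncated functions
  have hmonic : ∀ f ∈ SfsA K α A n m, ∀ i, (f + α i).Monic := by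
    intro f hf i
    unfold SfsA at hf
    rw [Finset.mem_filter] at hf
    exact (mem_Mn.1 (Mn_add (hdeg i) hf.1)).1
  have htr : |∑ f ∈ SfsA K α A n m, ∏ i ∈ S, (lamD G (f + α i) : ℝ)| ≤
      ε / 2 * (SfsA K α A n m).card := by
    -- expand
    have h1 : ∀ f : K[X], ∏ i ∈ S, (lamD G (f + α i) : ℝ) =
        ∑ g ∈ S.pi (fun _ => ML K G), ∏ x ∈ S.attach,
          (mobg (g x.1 x.2) (f + α x.1) : ℝ) := by
      intro f
      unfold lamD
      push_cast
      rw [Finset.prod_sum]
      rfl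
    rw [Finset.sum_congr rfl fun f _ => h1 f, Finset.sum_comm]
    refine (Finset.abs_sum_le_sum_abs _ _).trans ?_
    have h3 : ∀ g ∈ S.pi (fun _ => ML K G),
        |∑ f ∈ SfsA K α A n m, ∏ x ∈ S.attach, (mobg (g x.1 x.2) (f + α x.1) : ℝ)| ≤
          ε / (2 * (N + 1)) * (SfsA K α A n m).card := by
      intro g hg
      rw [Finset.mem_pi] at hg
      -- extend `g` to all the coordinates
      set g' : Fin k → K[X] := fun i => if h : i ∈ S then g i h else 1 with hg'
      have hg'm : ∀ i, (g' i).Monic ∧ g' i ∣ QG K G := by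
        intro i
        rw [hg']
        simp only
        split_ifs with h
        · exact ⟨(mem_ML.1 (hg i h)).1, dvd_QG (hg i h)⟩
        · exact ⟨monic_one, one_dvd _⟩
      have h4 : ∀ f : K[X], ∏ x ∈ S.attach, (mobg (g x.1 x.2) (f + α x.1) : ℝ) =
          ∏ i ∈ S, (mobg (g' i) (f + α i) : ℝ) := by
        intro f
        rw [← Finset.prod_attach S (fun i => (mobg (g' i) (f + α i) : ℝ))]
        refine Finset.prod_congr rfl fun x _ => ?_
        rw [hg']
        simp only
        rw [dif_pos x.2]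
      rw [Finset.sum_congr rfl fun f _ => h4 f, SfsA_sum α A n m G hmG]
      have h5 : ((SfsA K α A n m).card : ℝ) =
          ∑ r ∈ (SfsA K α A n m).image (fun f => f %ₘ QG K G),
            ((SfsG K α A (QG K G) r n m).card : ℝ) := by
        have h6 := SfsA_sum α A n m G hmG (fun _ => 1)
        simpa using h6
      rw [h5, Finset.mul_sum]
      refine (Finset.abs_sum_le_sum_abs _ _).trans (Finset.sum_le_sum fun r _ => ?_)
      have h7 := hpar n hn2 m hm2 hmκ2 α g' A S r hα hdeg hg'm hS (fun _ => 1)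
        (fun _ => by norm_num) (fun f => ⟨1, fun u _ => by simp⟩)
      simpa only [one_mul] using h7
    refine (Finset.sum_le_sum h3).trans ?_
    rw [Finset.sum_const, nsmul_eq_mul]
    have h8 : ((S.pi (fun _ => ML K G)).card : ℝ) ≤ N := by
      rw [Finset.card_pi, hN, Fintype.card_piFinset, Finset.prod_const, Finset.prod_const,
        Finset.card_univ, Fintype.card_fin]
      have h9 : 1 ≤ (ML K G).card := Finset.card_pos.2 ⟨1, mem_ML.2 ⟨monic_one, by simp⟩⟩
      have h10 : S.card ≤ k := by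
        have := Finset.card_le_univ S
        rwa [Fintype.card_fin] at this
      exact_mod_cast Nat.pow_le_pow_right h9 h10
    calc ((S.pi (fun _ => ML K G)).card : ℝ) *
          (ε / (2 * (N + 1)) * (SfsA K α A n m).card) ≤
          N * (ε / (2 * (N + 1)) * (SfsA K α A n m).card) :=
          mul_le_mul_of_nonneg_right h8 (by positivity)
      _ = (N / (N + 1)) * (ε / 2 * (SfsA K α A n m).card) := by field_simp
      _ ≤ 1 * (ε / 2 * (SfsA K α A n m).card) := by
          refine mul_le_mul_of_nonneg_right ?_ (by positivity)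
          rw [div_le_one (by positivity)]
          linarith
      _ = _ := one_mul _
  -- the tails
  have hta : |∑ f ∈ SfsA K α A n m, (∏ i ∈ S, (lio (f + α i) : ℝ) -
      ∏ i ∈ S, (lamD G (f + α i) : ℝ))| ≤ ε / 2 * (SfsA K α A n m).card := by
    refine (Finset.abs_sum_le_sum_abs _ _).trans ?_
    have h1 : ∀ f ∈ SfsA K α A n m, |∏ i ∈ S, (lio (f + α i) : ℝ) -
        ∏ i ∈ S, (lamD G (f + α i) : ℝ)| ≤ ∑ i ∈ S,
          (if ∃ g : K[X], g.Monic ∧ G < g.natDegree ∧ g ^ 2 ∣ f + α i then (1 : ℝ) else 0) := by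
      intro f hf
      refine (abs_prod_sub' S _ _ (fun i _ => abs_lio _)
        (fun i _ => abs_lamD G (hmonic f hf i))).trans ?_
      exact Finset.sum_le_sum fun i _ => lamD_diff G (hmonic f hf i)
    refine (Finset.sum_le_sum h1).trans ?_
    rw [Finset.sum_comm]
    have h2 : ∀ i ∈ S, ∑ f ∈ SfsA K α A n m,
        (if ∃ g : K[X], g.Monic ∧ G < g.natDegree ∧ g ^ 2 ∣ f + α i then (1 : ℝ) else 0) ≤
        ε / (2 * (k + 1)) * (SfsA K α A n m).card := by
      intro i _
      have h3 := htail n hn1 m hm1 hmκ1 α A hα hdeg i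
      rw [Finset.card_filter] at h3
      push_cast at h3
      exact h3
    refine (Finset.sum_le_sum h2).trans ?_
    rw [Finset.sum_const, nsmul_eq_mul]
    have h10 : (S.card : ℝ) ≤ k := by
      have := Finset.card_le_univ S
      rw [Fintype.card_fin] at this
      exact_mod_cast this
    calc (S.card : ℝ) * (ε / (2 * (k + 1)) * (SfsA K α A n m).card) ≤
          k * (ε / (2 * (k + 1)) * (SfsA K α A n m).card) :=
          mul_le_mul_of_nonneg_right h10 (by positivity)
      _ = (k / (k + 1)) * (ε / 2 * (SfsA K α A n m).card) := by field_simp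
      _ ≤ 1 * (ε / 2 * (SfsA K α A n m).card) := by
          refine mul_le_mul_of_nonneg_right ?_ (by positivity)
          rw [div_le_one (by positivity)]
          linarith
      _ = _ := one_mul _
  rw [Finset.sum_sub_distrib] at hta
  have h := abs_sub_abs_le_abs_sub (∑ f ∈ SfsA K α A n m, ∏ i ∈ S, (lio (f + α i) : ℝ))
    (∑ f ∈ SfsA K α A n m, ∏ i ∈ S, (lamD G (f + α i) : ℝ))
  linarith

end Pool.Agent.H985.Par
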