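import Mathlib
import Pool.Agent.H985.Par.Joint
import Pool.Agent.H985.Par.Asy

/-!
# Joint correlations, final form (helper985)
-/

set_option autoImplicit false

namespace Pool.Agent.H985.Par

open Polynomial Filter Topology
open scoped Classical
open Pool.Agent.H985.Chow (mob MD)
open Pool.Agent.H694.Typ (Mn mem_Mn card_Mn PU mem_PU)
open Pool.Agent.H524.Cw (lio)
open Pool.Agent.H225.Par (vf lf Om)

theorem jointF (ht : S_tail) (K : Type) [Field K] [Fintype K] [CharP K 2] (k l : ℕ) (ε : ℝ)
    (hε : 0 < ε) :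
    ∃ κ : ℝ, 0 < κ ∧ ∃ m₀ n₀ : ℕ, ∀ n : ℕ, n₀ ≤ n → ∀ m : ℕ, m₀ ≤ m → (m : ℝ) ≤ κ * n →
      ∀ (h : Fin k → K[X]) (h' : Fin l → K[X]), Function.Injective (Fin.append h h') →
      (∀ i, (h i).natDegree < n) → (∀ j, (h' j).natDegree < n) →
        |∑ f ∈ Sfs K h n m, ∏ j, (lio (f + h' j) : ℝ) -
          (if l = 0 then vf (PU K m) (fun _ => h) * (Fintype.card K : ℝ) ^ n else 0)| ≤
            ε * (vf (PU K m) (fun _ => h) * (Fintype.card K : ℝ) ^ n) := by
  obtain ⟨ε', hε'0, hε'1, hε'2⟩ : ∃ ε' : ℝ, 0 < ε' ∧ ε' ≤ 1 ∧ 2 * ε' ≤ ε :=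
    ⟨min 1 (ε / 2), lt_min one_pos (by positivity), min_le_left _ _, by
      have := min_le_right 1 (ε / 2)
      linarith⟩
  obtain ⟨κ, hκ, m₀, n₀, hj⟩ := joint ht K (k + l) ε' hε'0
  obtain ⟨A, hA⟩ := count K k ε' hε'0
  refine ⟨min κ (1 / (A + 1)), lt_min hκ (by positivity), m₀ + 1, n₀,
    fun n hn m hm hmκ h h' hinj hd hd' => ?_⟩
  have hAm : A * m ≤ n := by
    have h2 : (m : ℝ) ≤ 1 / (A + 1) * n :=
      hmκ.trans (mul_le_mul_of_nonneg_right (min_le_right _ _) (by positivity))
    have h3 : ((A : ℝ) + 1) * m ≤ n := by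
      calc ((A : ℝ) + 1) * m ≤ (A + 1) * (1 / (A + 1) * n) :=
            mul_le_mul_of_nonneg_left h2 (by positivity)
        _ = n := by field_simp
    have h4 : (A + 1) * m ≤ n := by exact_mod_cast h3
    nlinarith
  have hc := hA n m (by omega) hAm h
  have hv : 0 ≤ vf (PU K m) (fun _ => h) * (Fintype.card K : ℝ) ^ n :=
    mul_nonneg (vf_nonneg m h) (by positivity)
  set W : ℝ := vf (PU K m) (fun _ => h) * (Fintype.card K : ℝ) ^ n with hW
  by_cases hl : l = 0
  · subst hl
    rw [if_pos rfl]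
    simp only [Finset.univ_eq_empty, Finset.prod_empty, Finset.sum_const, nsmul_eq_mul, mul_one]
    refine hc.trans (mul_le_mul_of_nonneg_right (by linarith) hv)
  · rw [if_neg hl, sub_zero]
    set B : Finset (Fin (k + l)) := Finset.univ.image (Fin.castAdd l) with hB
    set S : Finset (Fin (k + l)) := Finset.univ.image (Fin.natAdd k) with hS
    have hSn : S.Nonempty := by
      obtain ⟨l', rfl⟩ := Nat.exists_eq_succ_of_ne_zero hl
      exact ⟨_, Finset.mem_image_of_mem _ (Finset.mem_univ (0 : Fin (l' + 1)))⟩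
    have hdeg : ∀ i, ((Fin.append h h') i).natDegree < n := by
      intro i
      refine Fin.addCases (fun i => ?_) (fun i => ?_) i
      · rw [Fin.append_left]
        exact hd i
      · rw [Fin.append_right]
        exact hd' i
    have h1 := hj n hn m (by omega)
      (hmκ.trans (mul_le_mul_of_nonneg_right (min_le_left _ _) (by positivity)))
      (Fin.append h h') B S hinj hdeg hSn
    have h2 : SfsA K (Fin.append h h') B n m = Sfs K h n m := by
      unfold SfsA Sfs
      refine Finset.filter_congr fun f _ => ?_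
      constructor
      · intro h3 i
        have := h3 (Fin.castAdd l i) (Finset.mem_image_of_mem _ (Finset.mem_univ i))
        rwa [Fin.append_left] at this
      · intro h3 i hi
        rw [hB, Finset.mem_image] at hi
        obtain ⟨i', -, rfl⟩ := hi
        rw [Fin.append_left]
        exact h3 i'
    have h3 : ∀ f : K[X], ∏ i ∈ S, (lio (f + (Fin.append h h') i) : ℝ) =
        ∏ j, (lio (f + h' j) : ℝ) := by
      intro f
      rw [hS, Finset.prod_image (fun a _ b _ hab => Fin.natAdd_injective l k hab)]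
      refine Finset.prod_congr rfl fun j _ => ?_
      rw [Fin.append_right]
    rw [h2, Finset.sum_congr rfl fun f _ => h3 f] at h1
    refine h1.trans ?_
    have h4 : ((Sfs K h n m).card : ℝ) ≤ 2 * W := by
      have := (abs_le.1 hc).2
      nlinarith
    calc ε' * ((Sfs K h n m).card : ℝ) ≤ ε' * (2 * W) := mul_le_mul_of_nonneg_left h4 hε'0.le
      _ = (2 * ε') * W := by ring
      _ ≤ ε * W := mul_le_mul_of_nonneg_right hε'2 hv

end Pool.Agent.H985.Par
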